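import Pool.Agent.Lib.MP_c5b475_co.Rooted

set_option autoImplicit false

/-!
# The final step: a flexible bipartite core
-/

namespace Pool.Agent.Lib.MP_0e31aa_co

open Finset

/-- `X` is flexible with respect to the bipartition `side`: paths inside `X` of all lengths between
`L` and `m - 1` of the right parity. -/
def Flexible {V : Type*} (G : SimpleGraph V) (m L : ℕ) (X : Finset V) (side : V → Bool) : Prop :=
  ∀ u ∈ X, ∀ v ∈ X, u ≠ v → ∀ ℓ, L ≤ ℓ → ℓ + 1 ≤ m → (ℓ % 2 = 0 ↔ side u = side v) →
    ∃ p : G.Walk u v, p.IsPath ∧ p.length = ℓ ∧ ∀ y ∈ p.support, y ∈ X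

/-- `G` has no cycle of length `m`. -/
def NoCycle {V : Type*} (G : SimpleGraph V) (m : ℕ) : Prop :=
  ∀ (u v : V) (p : G.Walk u v), p.IsPath → p.length + 1 = m → ¬ G.Adj v u

theorem noCycle_of {V : Type*} {G : SimpleGraph V} {m : ℕ} (hm : 3 ≤ m)
    (h : ∀ (u : V) (p : G.Walk u u), p.IsCycle → p.length ≠ m) : NoCycle G m := by
  intro u v p hp hl hadj
  apply h v (SimpleGraph.Walk.cons hadj p) _ (by simp [hl])
  rw [SimpleGraph.Walk.cons_isCycle_iff]
  refine ⟨hp, ?_⟩
  intro he
  have h1 : p.length ≤ 1 := by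
    -- an edge joining the ends of a path is the whole path
    cases p with
    | nil => simp
    | @cons _ b _ hb q =>
      rw [SimpleGraph.Walk.edges_cons, List.mem_cons] at he
      rw [SimpleGraph.Walk.cons_isPath_iff] at hp
      rcases he with he | he
      · rw [Sym2.eq_iff] at he
        rcases he with ⟨h2, h3⟩ | ⟨h2, _⟩
        · exact absurd h2 hadj.ne
        · subst h2
          have h4 := SimpleGraph.Walk.length_eq_zero_iff.mpr (SimpleGraph.Walk.isPath_iff_nil.mp hp.1)
          rw [SimpleGraph.Walk.length_cons, h4]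
      · exact absurd (SimpleGraph.Walk.snd_mem_support_of_mem_edges q he) hp.2
  omega

theorem flexible_insert {V : Type*} [DecidableEq V] {G : SimpleGraph V} {m L : ℕ} {X : Finset V}
    {side : V → Bool} (hm : m % 2 = 1) (hC : NoCycle G m) (hX : Flexible G m L X side)
    (hL : L + 2 ≤ m) {v a b : V} (hv : v ∉ X) (ha : a ∈ X) (hb : b ∈ X) (hab : a ≠ b)
    (hva : G.Adj v a) (hvb : G.Adj v b) :
    Flexible G m (L + 1) (insert v X) (Function.update side v (!side a)) := by
  have hva' : v ≠ a := fun h => hv (h ▸ ha)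
  have hvb' : v ≠ b := fun h => hv (h ▸ hb)
  have hs : side a = side b := by
    by_contra hne
    obtain ⟨p, hp, hl, hsup⟩ := hX a ha b hb hab (m - 2) (by omega) (by omega) (by
      constructor
      · intro h
        omega
      · intro h
        exact absurd h hne)
    refine hC v b (SimpleGraph.Walk.cons hva p) ?_ ?_ hvb.symm
    · rw [SimpleGraph.Walk.cons_isPath_iff]
      exact ⟨hp, fun h => hv (hsup v h)⟩
    · rw [SimpleGraph.Walk.length_cons, hl]
      omega
  -- paths starting at `v`
  have key : ∀ w ∈ X, ∀ ℓ, L + 1 ≤ ℓ → ℓ + 1 ≤ m → (ℓ % 2 = 0 ↔ (!side a) = side w) →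
      ∃ p : G.Walk v w, p.IsPath ∧ p.length = ℓ ∧ ∀ y ∈ p.support, y ∈ insert v X := by
    intro w hw ℓ h1 h2 h3
    have hc : ∃ c ∈ X, c ≠ w ∧ G.Adj v c ∧ side c = side a := by
      by_cases haw : a = w
      · exact ⟨b, hb, fun h => hab (haw.trans h.symm), hvb, hs.symm⟩
      · exact ⟨a, ha, haw, hva, rfl⟩
    obtain ⟨c, hcX, hcw, hvc, hcs⟩ := hc
    obtain ⟨p, hp, hl, hsup⟩ := hX c hcX w hw hcw (ℓ - 1) (by omega) (by omega) (by
      rw [hcs]
      constructor
      · intro h
        have h4 : ¬ (ℓ % 2 = 0) := by omega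
        rw [h3] at h4
        revert h4
        cases side a <;> cases side w <;> simp
      · intro h
        have h4 : ¬ ((!side a) = side w) := by
          rw [h]
          cases side w <;> simp
        rw [← h3] at h4
        omega)
    refine ⟨SimpleGraph.Walk.cons hvc p, ?_, ?_, ?_⟩
    · rw [SimpleGraph.Walk.cons_isPath_iff]
      exact ⟨hp, fun h => hv (hsup v h)⟩
    · rw [SimpleGraph.Walk.length_cons, hl]
      omega
    · intro y hy
      rw [SimpleGraph.Walk.support_cons, List.mem_cons] at hy
      rcases hy with rfl | hy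
      · exact mem_insert_self _ _
      · exact mem_insert_of_mem (hsup y hy)
  have hup : ∀ w ∈ X, Function.update side v (!side a) w = side w := by
    intro w hw
    rw [Function.update_of_ne]
    intro h
    exact hv (h ▸ hw)
  intro u hu w hw huw ℓ h1 h2 h3
  rcases mem_insert.mp hu with rfl | hu' <;> rcases mem_insert.mp hw with rfl | hw'
  · exact absurd rfl huw
  · rw [Function.update_self, hup w hw'] at h3
    exact key w hw' ℓ h1 h2 h3
  · rw [Function.update_self, hup u hu'] at h3
    obtain ⟨p, hp, hl, hsup⟩ := key u hu' ℓ h1 h2 (h3.trans ⟨Eq.symm, Eq.symm⟩)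
    refine ⟨p.reverse, hp.reverse, by simp [hl], ?_⟩
    intro y hy
    rw [SimpleGraph.Walk.support_reverse, List.mem_reverse] at hy
    exact hsup y hy
  · rw [hup u hu', hup w hw'] at h3
    obtain ⟨p, hp, hl, hsup⟩ := hX u hu' w hw' huw ℓ (by omega) h2 h3
    exact ⟨p, hp, hl, fun y hy => mem_insert_of_mem (hsup y hy)⟩

theorem closure {V : Type*} [Fintype V] [DecidableEq V] {G : SimpleGraph V} {m : ℕ}
    (hm : m % 2 = 1) (hC : NoCycle G m) :
    ∀ (k L : ℕ) (X : Finset V) (side : V → Bool), (univ \ X).card = k → Flexible G m L X side →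
      L + k + 2 ≤ m → ∃ (X' : Finset V) (side' : V → Bool), X ⊆ X' ∧
        Flexible G m (L + k) X' side' ∧
        ∀ v, v ∉ X' → ∀ a ∈ X', ∀ b ∈ X', G.Adj v a → G.Adj v b → a = b := by
  intro k
  induction k with
  | zero =>
    intro L X side hk hX _
    refine ⟨X, side, Subset.rfl, hX, ?_⟩
    intro v hv
    exfalso
    rw [card_eq_zero] at hk
    have : v ∈ univ \ X := mem_sdiff.mpr ⟨mem_univ _, hv⟩
    rw [hk] at this
    exact notMem_empty _ this
  | succ k ih =>
    intro L X side hk hX hL
    by_cases h : ∀ v, v ∉ X → ∀ a ∈ X, ∀ b ∈ X, G.Adj v a → G.Adj v b → a = b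
    · refine ⟨X, side, Subset.rfl, ?_, h⟩
      intro u hu v hv huv ℓ h1 h2 h3
      exact hX u hu v hv huv ℓ (by omega) h2 h3
    · push Not at h
      obtain ⟨v, hv, a, ha, b, hb, hva, hvb, hab⟩ := h
      have h1 := flexible_insert hm hC hX (by omega) hv ha hb hab hva hvb
      have h2 : (univ \ insert v X).card = k := by
        have h3 : univ \ insert v X = (univ \ X).erase v := by
          ext x
          simp only [mem_sdiff, mem_univ, true_and, mem_insert, mem_erase]
          tauto
        rw [h3, card_erase_of_mem (mem_sdiff.mpr ⟨mem_univ _, hv⟩), hk]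
        rfl
      obtain ⟨X', side', h4, h5, h6⟩ := ih (L + 1) (insert v X) _ h2 h1 (by omega)
      refine ⟨X', side', (subset_insert v X).trans h4, ?_, h6⟩
      have h7 : L + 1 + k = L + (k + 1) := by ring
      rw [h7] at h5
      exact h5

/-- An injection into a set which is large enough. -/
theorem inj_into {α β : Type*} [DecidableEq α] [Nonempty β] (A : Finset α) (B : Finset β)
    (h : A.card ≤ B.card) : ∃ f : α → β, (∀ a ∈ A, f a ∈ B) ∧ Set.InjOn f A := by
  obtain ⟨B', hB', hc⟩ := exists_subset_card_eq h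
  have e : A ≃ B' := Fintype.equivOfCardEq (by simp [hc])
  refine ⟨fun a => if ha : a ∈ A then (e ⟨a, ha⟩ : β) else Classical.arbitrary β, ?_, ?_⟩
  · intro a ha
    simp only [ha, dif_pos]
    exact hB' (e ⟨a, ha⟩).2
  · intro a ha b hb hab
    have ha' : a ∈ A := by exact_mod_cast ha
    have hb' : b ∈ A := by exact_mod_cast hb
    simp only [ha', hb', dif_pos] at hab
    have := e.injective (Subtype.ext hab)
    exact congrArg Subtype.val this

/-- Embedding a tree into a clique and a few further vertices each of which misses at most one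
vertex of the clique. `D` is a set of pairwise nonadjacent vertices of degree at most two. -/
theorem embed_clique {V U : Type*} [Fintype V] [DecidableEq V] [Fintype U] [DecidableEq U]
    (G : SimpleGraph V) (T : SimpleGraph U) (P Z : Finset V) (hPZ : Disjoint P Z)
    (hP : ∀ a ∈ P, ∀ b ∈ P, ¬ G.Adj a b)
    (hZ : ∀ v ∈ Z, ∀ a ∈ P, ∀ b ∈ P, G.Adj v a → G.Adj v b → a = b)
    (D : Finset U) (hD : ∀ x ∈ D, ∀ y ∈ D, ¬ T.Adj x y)
    (hdeg : ∀ x ∈ D, ∃ a b : U, ∀ y, T.Adj x y → y = a ∨ y = b)
    (hc : Fintype.card U ≤ P.card + D.card) (hDZ : D.card ≤ Z.card)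
    (h3 : 3 * D.card ≤ P.card) :
    ∃ φ : U → V, Function.Injective φ ∧ ∀ x y, T.Adj x y → ¬ G.Adj (φ x) (φ y) := by
  classical
  by_cases hne : Nonempty V
  swap
  · have hPe : P = ∅ := by
      rw [eq_empty_iff_forall_notMem]
      intro v _
      exact hne ⟨v⟩
    have hZe : D.card = 0 := by
      have : Z = ∅ := by
        rw [eq_empty_iff_forall_notMem]
        intro v _
        exact hne ⟨v⟩
      rw [this, card_empty] at hDZ
      omega
    rw [hPe, card_empty, hZe] at hc
    have hU : IsEmpty U := Fintype.card_eq_zero_iff.mp (by omega)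
    exact ⟨fun x => hU.elim x, fun x => hU.elim x, fun x => hU.elim x⟩
  obtain ⟨g, hg1, hg2⟩ := inj_into D Z hDZ
  set F : Finset V := D.biUnion (fun x => P.filter (fun a => G.Adj (g x) a)) with hF
  have hFc : F.card ≤ D.card := by
    refine card_biUnion_le.trans ?_
    calc ∑ x ∈ D, (P.filter (fun a => G.Adj (g x) a)).card ≤ ∑ x ∈ D, 1 := by
          apply sum_le_sum
          intro x hx
          rw [card_le_one]
          intro a ha b hb
          rw [mem_filter] at ha hb
          exact hZ (g x) (hg1 x hx) a ha.1 b hb.1 ha.2 hb.2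
      _ = D.card := by simp
  set N : Finset U := D.biUnion (fun x => univ.filter (fun y => T.Adj x y)) with hN
  have hNc : N.card ≤ 2 * D.card := by
    refine card_biUnion_le.trans ?_
    calc ∑ x ∈ D, (univ.filter (fun y => T.Adj x y)).card ≤ ∑ x ∈ D, 2 := by
          apply sum_le_sum
          intro x hx
          obtain ⟨a, b, hab⟩ := hdeg x hx
          have : univ.filter (fun y => T.Adj x y) ⊆ {a, b} := by
            intro y hy
            rw [mem_filter] at hy
            rw [mem_insert, mem_singleton]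
            exact hab y hy.2
          exact (card_le_card this).trans card_le_two
      _ = 2 * D.card := by simp [mul_comm]
  have hND : ∀ y ∈ N, y ∉ D := by
    intro y hy hyD
    obtain ⟨x, hx, hxy⟩ := mem_biUnion.mp hy
    exact hD x hx y hyD (mem_filter.mp hxy).2
  obtain ⟨f1, hf1, hf2⟩ := inj_into N (P \ F) (by
    have := le_card_sdiff F P
    omega)
  set M : Finset U := (univ \ D) \ N with hM
  obtain ⟨f2, hf3, hf4⟩ := inj_into M (P \ N.image f1) (by
    have h4 := le_card_sdiff (N.image f1) P
    have h5 : (N.image f1).card ≤ N.card := card_image_le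
    have h6 : N ⊆ univ \ D := fun y hy => mem_sdiff.mpr ⟨mem_univ _, hND y hy⟩
    have h7 : M.card = (univ \ D).card - N.card := card_sdiff_of_subset h6
    have h8 : (univ \ D).card = Fintype.card U - D.card := by
      rw [card_sdiff_of_subset (subset_univ _), card_univ]
    omega)
  have hmem : ∀ x, x ∉ D → x ∉ N → x ∈ M := by
    intro x h4 h5
    exact mem_sdiff.mpr ⟨mem_sdiff.mpr ⟨mem_univ _, h4⟩, h5⟩
  set φ : U → V := fun x => if x ∈ D then g x else if x ∈ N then f1 x else f2 x with hφ
  have φD : ∀ x, x ∈ D → φ x = g x := by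
    intro x hx
    simp [hφ, hx]
  have φN : ∀ x, x ∈ N → φ x = f1 x := by
    intro x hx
    simp [hφ, hx, hND x hx]
  have φM : ∀ x, x ∉ D → x ∉ N → φ x = f2 x := by
    intro x hx hx2
    simp [hφ, hx, hx2]
  have φP : ∀ x, x ∉ D → φ x ∈ P := by
    intro x hx
    by_cases hx2 : x ∈ N
    · rw [φN x hx2]
      exact (mem_sdiff.mp (hf1 x hx2)).1
    · rw [φM x hx hx2]
      exact (mem_sdiff.mp (hf3 x (hmem x hx hx2))).1
  have φF : ∀ x ∈ D, ∀ y, T.Adj x y → ¬ G.Adj (φ x) (φ y) := by
    intro x hx y hxy hG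
    have hyN : y ∈ N := mem_biUnion.mpr ⟨x, hx, mem_filter.mpr ⟨mem_univ _, hxy⟩⟩
    rw [φD x hx, φN y hyN] at hG
    have h4 := mem_sdiff.mp (hf1 y hyN)
    exact h4.2 (mem_biUnion.mpr ⟨x, hx, mem_filter.mpr ⟨h4.1, hG⟩⟩)
  refine ⟨φ, ?_, ?_⟩
  · intro x y hxy
    by_cases hx : x ∈ D <;> by_cases hy : y ∈ D
    · rw [φD x hx, φD y hy] at hxy
      exact hg2 (by exact_mod_cast hx) (by exact_mod_cast hy) hxy
    · exfalso
      have h4 := φP y hy
      rw [← hxy, φD x hx] at h4
      exact Finset.disjoint_left.mp hPZ h4 (hg1 x hx)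
    · exfalso
      have h4 := φP x hx
      rw [hxy, φD y hy] at h4
      exact Finset.disjoint_left.mp hPZ h4 (hg1 y hy)
    · by_cases hx2 : x ∈ N <;> by_cases hy2 : y ∈ N
      · rw [φN x hx2, φN y hy2] at hxy
        exact hf2 (by exact_mod_cast hx2) (by exact_mod_cast hy2) hxy
      · exfalso
        rw [φN x hx2, φM y hy hy2] at hxy
        have h4 := (mem_sdiff.mp (hf3 y (hmem y hy hy2))).2
        rw [← hxy] at h4
        exact h4 (mem_image_of_mem f1 hx2)
      · exfalso
        rw [φN y hy2, φM x hx hx2] at hxy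
        have h4 := (mem_sdiff.mp (hf3 x (hmem x hx hx2))).2
        rw [hxy] at h4
        exact h4 (mem_image_of_mem f1 hy2)
      · rw [φM x hx hx2, φM y hy hy2] at hxy
        exact hf4 (by exact_mod_cast hmem x hx hx2) (by exact_mod_cast hmem y hy hy2) hxy
  · intro x y hxy hG
    by_cases hx : x ∈ D
    · exact φF x hx y hxy hG
    · by_cases hy : y ∈ D
      · exact φF y hy x hxy.symm hG.symm
      · exact hP _ (φP x hx) _ (φP y hy) hG

open MP_c5b475_co in
/-- A tree has many pairwise nonadjacent vertices of degree at most two. -/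
theorem low_indep {U : Type*} [Fintype U] [DecidableEq U] {T : SimpleGraph U} (hT : T.IsTree) :
    ∃ I : Finset U, Fintype.card U ≤ 6 * I.card ∧ (∀ x ∈ I, ∀ y ∈ I, ¬ T.Adj x y) ∧
      ∀ x ∈ I, ∃ a b : U, ∀ y, T.Adj x y → y = a ∨ y = b := by
  classical
  have hne : Nonempty U := hT.connected.nonempty
  obtain ⟨R, -, -⟩ := exists_RT hT (Classical.arbitrary U)
  have hcol : ∀ x y, T.Adj x y → R.dep x % 2 ≠ R.dep y % 2 := by
    intro x y h
    rcases (R.adj_iff x y).mp h with ⟨h1, rfl⟩ | ⟨h1, rfl⟩
    · have := R.dep_par x h1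
      omega
    · have := R.dep_par y h1
      omega
  set low : Finset U := univ.filter (fun x => T.degree x ≤ 2) with hlow
  have h1 : Fintype.card U ≤ 3 * low.card := by
    have h2 := T.sum_degrees_eq_twice_card_edges
    have h3 := hT.card_edgeFinset
    have h4 : 3 * (univ.filter (fun x => ¬ T.degree x ≤ 2)).card ≤ ∑ x, T.degree x := by
      calc 3 * (univ.filter (fun x => ¬ T.degree x ≤ 2)).card
          = ∑ x ∈ univ.filter (fun x => ¬ T.degree x ≤ 2), 3 := by simp [mul_comm]
        _ ≤ ∑ x ∈ univ.filter (fun x => ¬ T.degree x ≤ 2), T.degree x := by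
            apply sum_le_sum
            intro x hx
            rw [mem_filter] at hx
            omega
        _ ≤ ∑ x, T.degree x := sum_le_sum_of_subset (subset_univ _)
    have h5 := card_filter_add_card_filter_not (s := (univ : Finset U)) (fun x => T.degree x ≤ 2)
    rw [card_univ, ← hlow] at h5
    omega
  have h6 := card_filter_add_card_filter_not (s := low) (fun x => R.dep x % 2 = 0)
  have hdeg : ∀ x ∈ low, ∃ a b : U, ∀ y, T.Adj x y → y = a ∨ y = b := by
    intro x hx
    rw [hlow, mem_filter] at hx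
    have h7 : (T.neighborFinset x).card ≤ 2 := by
      rw [T.card_neighborFinset_eq_degree]
      exact hx.2
    rcases Nat.lt_or_ge (T.neighborFinset x).card 2 with h8 | h8
    · have h9 : (T.neighborFinset x).card ≤ 1 := by omega
      rw [card_le_one] at h9
      rcases (T.neighborFinset x).eq_empty_or_nonempty with h10 | ⟨a, ha⟩
      · refine ⟨x, x, fun y hy => ?_⟩
        exfalso
        have : y ∈ T.neighborFinset x := (T.mem_neighborFinset x y).mpr hy
        rw [h10] at this
        exact notMem_empty _ this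
      · exact ⟨a, a, fun y hy => Or.inl (h9 y ((T.mem_neighborFinset x y).mpr hy) a ha)⟩
    · obtain ⟨a, b, -, hab⟩ := card_eq_two.mp (le_antisymm h7 h8)
      refine ⟨a, b, fun y hy => ?_⟩
      have : y ∈ T.neighborFinset x := (T.mem_neighborFinset x y).mpr hy
      rw [hab, mem_insert, mem_singleton] at this
      exact this
  rcases le_total (low.filter (fun x => R.dep x % 2 = 0)).card
    (low.filter (fun x => ¬ R.dep x % 2 = 0)).card with h7 | h7
  · refine ⟨low.filter (fun x => ¬ R.dep x % 2 = 0), by omega, ?_, ?_⟩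
    · intro x hx y hy h
      have h8 := hcol x y h
      have h9 := (mem_filter.mp hx).2
      have h10 := (mem_filter.mp hy).2
      omega
    · intro x hx
      exact hdeg x (mem_filter.mp hx).1
  · refine ⟨low.filter (fun x => R.dep x % 2 = 0), by omega, ?_, ?_⟩
    · intro x hx y hy h
      have h8 := hcol x y h
      have h9 := (mem_filter.mp hx).2
      have h10 := (mem_filter.mp hy).2
      omega
    · intro x hx
      exact hdeg x (mem_filter.mp hx).1

/-- **Final step.** A blue graph on at least `2n - 1` vertices without `C_m`, `m` odd, with a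
flexible bipartite core `X` missing at most `n / 6` vertices: every tree with `n` vertices embeds
into the red graph. -/
theorem final_step {V U : Type*} [Fintype V] [DecidableEq V] [Fintype U] [DecidableEq U]
    (G : SimpleGraph V) (T : SimpleGraph U) (hT : T.IsTree) (n m L : ℕ) (hn : Fintype.card U = n)
    (hV : 2 * n ≤ Fintype.card V + 1) (hm : m % 2 = 1) (hC : NoCycle G m) (X : Finset V)
    (side : V → Bool) (hX : Flexible G m L X side) (hz : 6 * (univ \ X).card ≤ n)
    (hL : L + (univ \ X).card + 2 ≤ m) :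
    ∃ φ : U → V, Function.Injective φ ∧ ∀ x y, T.Adj x y → ¬ G.Adj (φ x) (φ y) := by
  classical
  obtain ⟨X', side', hXX, hfl, hout⟩ := closure hm hC _ L X side rfl hX hL
  have hsub : univ \ X' ⊆ univ \ X := sdiff_subset_sdiff Subset.rfl hXX
  have hz' : (univ \ X').card ≤ (univ \ X).card := card_le_card hsub
  have hsz : (univ \ X').card + X'.card = Fintype.card V := by
    rw [card_sdiff_add_card_eq_card (subset_univ _), card_univ]
  have hred : ∀ u ∈ X', ∀ v ∈ X', side' u = side' v → ¬ G.Adj u v := by
    intro u hu v hv hs hG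
    obtain ⟨p, hp, hl, -⟩ := hfl u hu v hv hG.ne (m - 1) (by omega) (by omega) (by
      constructor
      · intro _
        exact hs
      · intro _
        omega)
    exact hC u v p hp (by omega) hG.symm
  have hsplit := card_filter_add_card_filter_not (s := X') (fun x => side' x = true)
  obtain ⟨P, hPX, hPred, hPc⟩ : ∃ P ⊆ X', (∀ a ∈ P, ∀ b ∈ P, ¬ G.Adj a b) ∧
      X'.card ≤ 2 * P.card := by
    rcases le_total (X'.filter (fun x => side' x = true)).card
      (X'.filter (fun x => ¬ side' x = true)).card with h7 | h7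
    · refine ⟨X'.filter (fun x => ¬ side' x = true), filter_subset _ _, ?_, by omega⟩
      intro a ha b hb
      rw [mem_filter] at ha hb
      apply hred a ha.1 b hb.1
      have h8 := ha.2
      have h9 := hb.2
      rw [Bool.not_eq_true] at h8 h9
      rw [h8, h9]
    · refine ⟨X'.filter (fun x => side' x = true), filter_subset _ _, ?_, by omega⟩
      intro a ha b hb
      rw [mem_filter] at ha hb
      exact hred a ha.1 b hb.1 (ha.2.trans hb.2.symm)
  obtain ⟨I, hI1, hI2, hI3⟩ := low_indep hT
  obtain ⟨D, hDI, hDc⟩ := exists_subset_card_eq (s := I) (n := n - P.card) (by omega)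
  apply embed_clique G T P (univ \ X') ?_ hPred ?_ D (fun x hx y hy => hI2 x (hDI hx) y (hDI hy))
    (fun x hx => hI3 x (hDI hx))
  · omega
  · omega
  · omega
  · rw [Finset.disjoint_left]
    intro v hv hv2
    exact (mem_sdiff.mp hv2).2 (hPX hv)
  · intro v hv a ha b hb hva hvb
    exact hout v (mem_sdiff.mp hv).2 a (hPX ha) b (hPX hb) hva hvb

end Pool.Agent.Lib.MP_0e31aa_co
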