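import Pool.Agent.Lib.MP_0e31aa_co.WalkCap

set_option autoImplicit false

/-!
# Following a walk of the reduced graph by a path of the big graph
-/

namespace Pool.Agent.Lib.MP_0e31aa_co

open Finset

open Classical in
/-- Greedy path along a walk of the reduced graph. -/
theorem follow {V ι : Type*} [DecidableEq V] [DecidableEq ι] (G : SimpleGraph V)
    (Γ : SimpleGraph ι) (K : ι → Finset V) (hdis : ∀ i j, i ≠ j → Disjoint (K i) (K j))
    (α β : ℕ) (hα : 1 ≤ α)
    (hT : ∀ i j, Γ.Adj i j → ∀ B ⊆ K j, β ≤ B.card →
      ((K i).filter (fun v => (B.filter (fun x => G.Adj v x)).card < α)).card < α)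
    (S : Finset V) (hSβ : β ≤ S.card) {i j : ι} (w : Γ.Walk i j) :
    ∀ (U : Finset V) (v : V), S ⊆ K j → v ∈ U → v ∉ S →
      α ≤ ((if w.length = 0 then S else K i \ (S ∪ U)).filter (fun x => G.Adj v x)).card →
      (∀ x, β + w.support.count x ≤ (K x \ (S ∪ U)).card) →
      ∃ (s : V) (p : G.Walk v s), s ∈ S ∧ p.IsPath ∧ p.length = w.length + 1 ∧
        ∀ y ∈ p.support, y = v ∨ y ∈ S ∨ ∃ x, y ∈ K x \ (S ∪ U) := by
  induction w with
  | nil =>
    intro U v _ _ hvS h1 _
    rw [SimpleGraph.Walk.length_nil, if_pos rfl] at h1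
    have h2 : 0 < (S.filter (fun x => G.Adj v x)).card := lt_of_lt_of_le hα h1
    obtain ⟨s, hs⟩ := card_pos.mp h2
    rw [mem_filter] at hs
    refine ⟨s, SimpleGraph.Walk.cons hs.2 SimpleGraph.Walk.nil, hs.1, ?_, by simp, ?_⟩
    · rw [SimpleGraph.Walk.cons_isPath_iff]
      refine ⟨SimpleGraph.Walk.IsPath.nil, ?_⟩
      rw [SimpleGraph.Walk.support_nil, List.mem_singleton]
      intro h
      exact hvS (h ▸ hs.1)
    · intro y hy
      rw [SimpleGraph.Walk.support_cons, SimpleGraph.Walk.support_nil] at hy
      simp only [List.mem_cons, List.not_mem_nil, or_false] at hy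
      rcases hy with rfl | rfl
      · exact Or.inl rfl
      · exact Or.inr (Or.inl hs.1)
  | @cons i k j h w ih =>
    intro U v hSj hvU hvS h1 h2
    rw [SimpleGraph.Walk.length_cons, if_neg (by omega)] at h1
    -- the next target set
    set B : Finset V := if w.length = 0 then S else K k \ (S ∪ U) with hB
    have hBK : B ⊆ K k := by
      rw [hB]
      split_ifs with h3
      · have := SimpleGraph.Walk.eq_of_length_eq_zero h3
        subst this
        exact hSj
      · exact sdiff_subset
    have hBc : β ≤ B.card := by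
      rw [hB]
      split_ifs with h3
      · exact hSβ
      · exact le_trans (Nat.le_add_right _ _) (h2 k)
    have h4 := hT i k h B hBK hBc
    have h5 : ∃ v' ∈ (K i \ (S ∪ U)).filter (fun x => G.Adj v x),
        v' ∉ (K i).filter (fun v => (B.filter (fun x => G.Adj v x)).card < α) := by
      by_contra hcon
      push Not at hcon
      have := card_le_card (fun x hx => hcon x hx)
      omega
    obtain ⟨v', h6, h7⟩ := h5
    rw [mem_filter, mem_sdiff, mem_union] at h6
    obtain ⟨⟨h8, h9⟩, h10⟩ := h6
    have h11 : α ≤ (B.filter (fun x => G.Adj v' x)).card := by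
      by_contra hcon
      exact h7 (mem_filter.mpr ⟨h8, by omega⟩)
    have hik : i ≠ k := h.ne
    have hv'k : v' ∉ K k := fun hh => Finset.disjoint_left.mp (hdis i k hik) h8 hh
    have hsame : K k \ (S ∪ insert v' U) = K k \ (S ∪ U) := by
      ext x
      simp only [mem_sdiff, mem_union, mem_insert]
      constructor
      · rintro ⟨a, b⟩
        exact ⟨a, fun hh => b (hh.elim Or.inl (fun hh => Or.inr (Or.inr hh)))⟩
      · rintro ⟨a, b⟩
        refine ⟨a, ?_⟩
        rintro (hh | hh | hh)
        · exact b (Or.inl hh)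
        · exact hv'k (hh ▸ a)
        · exact b (Or.inr hh)
    obtain ⟨s, p, hs, hp, hl, hsup⟩ := ih (insert v' U) v' hSj (mem_insert_self _ _)
      (fun hh => h9 (Or.inl hh)) (by rw [hsame]; exact h11) (by
        intro x
        have h12 := h2 x
        rw [SimpleGraph.Walk.support_cons, List.count_cons] at h12
        by_cases hx : x = i
        · subst hx
          simp only [beq_self_eq_true, if_true] at h12
          have h13 : (K x \ (S ∪ U)).card ≤ (K x \ (S ∪ insert v' U)).card + 1 := by
            have h14 : K x \ (S ∪ U) ⊆ insert v' (K x \ (S ∪ insert v' U)) := by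
              intro y hy
              rw [mem_sdiff, mem_union] at hy
              rw [mem_insert, mem_sdiff, mem_union, mem_insert]
              by_cases hyv : y = v'
              · exact Or.inl hyv
              · right
                refine ⟨hy.1, ?_⟩
                rintro (hh | hh | hh)
                · exact hy.2 (Or.inl hh)
                · exact hyv hh
                · exact hy.2 (Or.inr hh)
            exact (card_le_card h14).trans (card_insert_le _ _)
          omega
        · have h13 : K x \ (S ∪ insert v' U) = K x \ (S ∪ U) := by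
            have hv'x : v' ∉ K x := fun hh =>
              Finset.disjoint_left.mp (hdis i x (Ne.symm hx)) h8 hh
            ext y
            simp only [mem_sdiff, mem_union, mem_insert]
            constructor
            · rintro ⟨a, b⟩
              exact ⟨a, fun hh => b (hh.elim Or.inl (fun hh => Or.inr (Or.inr hh)))⟩
            · rintro ⟨a, b⟩
              refine ⟨a, ?_⟩
              rintro (hh | hh | hh)
              · exact b (Or.inl hh)
              · exact hv'x (hh ▸ a)
              · exact b (Or.inr hh)
          rw [h13]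
          have h14 : (i == x) = false := by simpa using Ne.symm hx
          rw [h14] at h12
          simp only [Bool.false_eq_true, if_false, add_zero] at h12
          exact h12)
    have hne : v ≠ v' := fun hh => h9 (Or.inr (hh ▸ hvU))
    refine ⟨s, SimpleGraph.Walk.cons h10 p, hs, ?_, by simp [hl], ?_⟩
    · rw [SimpleGraph.Walk.cons_isPath_iff]
      refine ⟨hp, ?_⟩
      intro hv
      rcases hsup v hv with h15 | h15 | ⟨x, h15⟩
      · exact hne h15
      · exact hvS h15
      · rw [mem_sdiff, mem_union, mem_insert] at h15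
        exact h15.2 (Or.inr (Or.inr hvU))
    · intro y hy
      rw [SimpleGraph.Walk.support_cons, List.mem_cons] at hy
      rcases hy with rfl | hy
      · exact Or.inl rfl
      · rcases hsup y hy with h15 | h15 | ⟨x, h15⟩
        · right
          right
          subst h15
          refine ⟨i, ?_⟩
          rw [mem_sdiff, mem_union]
          exact ⟨h8, h9⟩
        · exact Or.inr (Or.inl h15)
        · right
          right
          refine ⟨x, ?_⟩
          rw [mem_sdiff, mem_union] at h15 ⊢
          refine ⟨h15.1, fun hh => h15.2 ?_⟩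
          rcases hh with hh | hh
          · exact Or.inl hh
          · exact Or.inr (mem_insert_of_mem hh)

open Classical in
/-- **Flexible paths.** Let `K i` be disjoint vertex sets indexed by the vertices of a connected
graph `Γ` such that for adjacent `i`, `j` fewer than `α` vertices of `K i` have fewer than `α`
neighbours in a set `B ⊆ K j` with at least `β` elements, and each vertex of `K i` has many
neighbours in one of the adjacent sets. If `f` is an injective map on `D` with `i`, `f i`
adjacent, then any two different vertices of the sets are joined by paths of every length (with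
the parity of a walk of `Γ`) up to `2 * C * D.card`. -/
theorem flex {V ι : Type*} [DecidableEq V] [Fintype ι] [DecidableEq ι] (G : SimpleGraph V)
    (Γ : SimpleGraph ι) (hΓ : Γ.Preconnected) (K : ι → Finset V)
    (hdis : ∀ i j, i ≠ j → Disjoint (K i) (K j)) (α β C : ℕ) (hα : 1 ≤ α)
    (hT : ∀ i j, Γ.Adj i j → ∀ B ⊆ K j, β ≤ B.card →
      ((K i).filter (fun v => (B.filter (fun x => G.Adj v x)).card < α)).card < α)
    (hdeg : ∀ i, ∀ v ∈ K i, ∃ j, Γ.Adj i j ∧
      α + β + 2 ≤ ((K j).filter (fun x => G.Adj v x)).card)
    (D : Finset ι) (f : ι → ι) (hf : Set.InjOn f D) (hadj : ∀ i ∈ D, Γ.Adj i (f i))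
    (hsize : ∀ i, 2 * β + 2 * C + 2 * Fintype.card ι * (Fintype.card ι + 1) + 4 ≤ (K i).card)
    {i j : ι} {u v : V} (hu : u ∈ K i) (hv : v ∈ K j) (huv : u ≠ v) (ℓ : ℕ)
    (w0 : Γ.Walk i j) (hpar : w0.length % 2 = ℓ % 2)
    (h1 : 2 * Fintype.card ι * (Fintype.card ι + 1) + 3 ≤ ℓ) (h2 : ℓ ≤ 2 * C * D.card + 2) :
    ∃ p : G.Walk u v, p.IsPath ∧ p.length = ℓ ∧ ∀ y ∈ p.support, ∃ x, y ∈ K x := by
  obtain ⟨a, ha, ha2⟩ := hdeg i u hu
  obtain ⟨b, hb, hb2⟩ := hdeg j v hv
  obtain ⟨w, hw, hcount⟩ := walk_cap Γ f D hf hadj (p := a) (q := b) (fun x _ => hΓ a x) C (ℓ - 2)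
    (SimpleGraph.Walk.cons ha.symm (w0.concat hb)) (by
      rw [SimpleGraph.Walk.length_cons, SimpleGraph.Walk.length_concat]
      omega) (by omega) (by omega)
  -- the target set
  have hS0 : β ≤ (((K b).filter (fun x => G.Adj v x)).erase u).card := by
    have := pred_card_le_card_erase (a := u) (s := (K b).filter (fun x => G.Adj v x))
    omega
  obtain ⟨S, hS1, hS2⟩ := exists_subset_card_eq hS0
  have hSb : S ⊆ K b := fun x hx => (mem_filter.mp (mem_of_mem_erase (hS1 hx))).1
  have hSu : u ∉ S := fun hh => (mem_erase.mp (hS1 hh)).1 rfl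
  have hSv : v ∉ S := fun hh => (G.loopless.irrefl v) (mem_filter.mp (mem_of_mem_erase (hS1 hh))).2
  have hwl : w.length ≠ 0 := by omega
  obtain ⟨s, p, hs, hp, hl, hsup⟩ := follow G Γ K hdis α β hα hT S (le_of_eq hS2.symm) w {u, v} u
    hSb (by simp) hSu (by
      rw [if_neg hwl]
      have h3 : (K a).filter (fun x => G.Adj u x) ⊆
          (K a \ (S ∪ {u, v})).filter (fun x => G.Adj u x) ∪ (S ∪ {u, v}) := by
        intro x hx
        rw [mem_filter] at hx
        by_cases hx2 : x ∈ S ∪ {u, v}
        · exact mem_union_right _ hx2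
        · exact mem_union_left _ (mem_filter.mpr ⟨mem_sdiff.mpr ⟨hx.1, hx2⟩, hx.2⟩)
      have h4 := (card_le_card h3).trans (card_union_le _ _)
      have h5 : (S ∪ {u, v}).card ≤ β + 2 := by
        refine (card_union_le _ _).trans ?_
        rw [hS2]
        exact Nat.add_le_add_left card_le_two _
      omega) (by
      intro x
      have h3 := hcount x
      have h4 := hsize x
      have h5 : (S ∪ {u, v}).card ≤ β + 2 := by
        refine (card_union_le _ _).trans ?_
        rw [hS2]
        exact Nat.add_le_add_left card_le_two _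
      have h6 := le_card_sdiff (S ∪ {u, v}) (K x)
      omega)
  have hsv : G.Adj s v := (mem_filter.mp (mem_of_mem_erase (hS1 hs))).2.symm
  refine ⟨p.concat hsv, ?_, ?_, ?_⟩
  · rw [SimpleGraph.Walk.concat_isPath_iff]
    refine ⟨hp, ?_⟩
    intro hvp
    rcases hsup v hvp with h3 | h3 | ⟨x, h3⟩
    · exact huv h3.symm
    · exact hSv h3
    · rw [mem_sdiff, mem_union] at h3
      exact h3.2 (Or.inr (by simp))
  · rw [SimpleGraph.Walk.length_concat, hl, hw]
    omega
  · intro y hy
    rw [SimpleGraph.Walk.support_concat, List.mem_append,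
      List.mem_singleton] at hy
    rcases hy with hy | rfl
    · rcases hsup y hy with rfl | h3 | ⟨x, h3⟩
      · exact ⟨i, hu⟩
      · exact ⟨b, hSb h3⟩
      · exact ⟨x, (mem_sdiff.mp h3).1⟩
    · exact ⟨j, hv⟩

end Pool.Agent.Lib.MP_0e31aa_co
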