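import Mathlib
import Pool.Agent.Lib.MP_c5b475_co.Rooted

set_option autoImplicit false

/-!
# Trees: greedy embedding into prescribed regions, splitting at a vertex, colour classes
-/

namespace Pool.Agent.Lib.MP_0e31aa_co

open Finset
open Pool.Agent.Lib.MP_c5b475_co (RT exists_RT)

open scoped Classical in
/-- Greedy embedding of a tree into prescribed regions.  `c w` is the class of the tree vertex
`w`, `S i` the region of the class `i`.  If `v` is a child of `u` (seen from the root `r`) then
every `x ∈ S (c u)` must have few non-neighbours in `S (c v)`. -/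
theorem greedy_embed {W V ι : Type*} [Fintype W] {T : SimpleGraph W} (hT : T.IsTree) (r : W)
    (R : SimpleGraph V) (c : W → ι) (S : ι → Finset V)
    (hS : ∀ i j, i ≠ j → Disjoint (S i) (S j)) (hr : (S (c r)).Nonempty)
    (h : ∀ u v, T.Adj u v → T.dist r u < T.dist r v → ∀ x ∈ S (c u),
      (univ.filter (fun w => c w = c v)).card +
        ((S (c v)).filter (fun y => y ≠ x ∧ ¬ R.Adj x y)).card ≤ (S (c v)).card) :
    ∃ f : W → V, Function.Injective f ∧ (∀ u v, T.Adj u v → R.Adj (f u) (f v)) ∧
      ∀ w, f w ∈ S (c w) := by
  obtain ⟨D, hc, hdep⟩ := exists_RT hT r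
  subst hc
  have key : ∀ k : ℕ, k + 1 ≤ Fintype.card W → ∃ A : Finset W, A.card = k + 1 ∧ D.c ∈ A ∧
      (∀ u ∈ A, u ≠ D.c → D.par u ∈ A) ∧ ∃ f : W → V, Set.InjOn f (A : Set W) ∧
      (∀ u ∈ A, f u ∈ S (c u)) ∧ ∀ u ∈ A, u ≠ D.c → R.Adj (f (D.par u)) (f u) := by
    intro k
    induction k with
    | zero =>
      intro _
      obtain ⟨y, hy⟩ := hr
      refine ⟨{D.c}, by simp, by simp, ?_, fun _ => y, ?_, ?_, ?_⟩
      · intro u hu hne
        exact absurd (mem_singleton.1 hu) hne
      · intro a ha b hb _
        simp only [coe_singleton, Set.mem_singleton_iff] at ha hb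
        rw [ha, hb]
      · intro u hu
        rw [mem_singleton.1 hu]
        exact hy
      · intro u hu hne
        exact absurd (mem_singleton.1 hu) hne
    | succ k ih =>
      intro hk
      obtain ⟨A, hA, hcA, hpA, f, hinj, hfS, hadj⟩ := ih (by omega)
      have hne : (univ \ A : Finset W).Nonempty := by
        rw [← card_pos, card_sdiff_of_subset (subset_univ _), card_univ]
        omega
      obtain ⟨u, hu, humin⟩ := exists_min_image (univ \ A) D.dep hne
      have huA : u ∉ A := (mem_sdiff.1 hu).2
      have hur : u ≠ D.c := fun e => huA (e ▸ hcA)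
      have hdp : D.dep (D.par u) + 1 = D.dep u := D.dep_par u hur
      have hpu : D.par u ∈ A := by
        by_contra hcon
        have := humin (D.par u) (by simp [hcon])
        omega
      have hadjT : T.Adj (D.par u) u := (D.adj_par hur).symm
      have hdist : T.dist D.c (D.par u) < T.dist D.c u := by
        rw [← hdep]; omega
      have hmain := h (D.par u) u hadjT hdist (f (D.par u)) (hfS _ hpu)
      set x := f (D.par u) with hx
      let used : Finset V := (A.filter (fun w => c w = c u)).image f
      have hused : used.card + 1 ≤ (univ.filter (fun w => c w = c u)).card := by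
        have h1 : used.card ≤ (A.filter (fun w => c w = c u)).card := card_image_le
        have h2 : (A.filter (fun w => c w = c u)).card < (univ.filter (fun w => c w = c u)).card := by
          apply card_lt_card
          refine ⟨?_, ?_⟩
          · intro w hw
            simp only [mem_filter, mem_univ, true_and] at hw ⊢
            exact hw.2
          · intro hsub
            have := hsub (show u ∈ univ.filter (fun w => c w = c u) by simp)
            exact huA (mem_filter.1 this).1
        omega
      have hex : ∃ y ∈ S (c u), y ∉ used ∧ ¬ (y ≠ x ∧ ¬ R.Adj x y) := by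
        by_contra hcon
        push Not at hcon
        have hsub : S (c u) ⊆ used ∪ (S (c u)).filter (fun y => y ≠ x ∧ ¬ R.Adj x y) := by
          intro y hy
          by_cases hyu : y ∈ used
          · exact mem_union_left _ hyu
          · exact mem_union_right _ (mem_filter.2 ⟨hy, hcon y hy hyu⟩)
        have h1 := card_le_card hsub
        have h2 := card_union_le used ((S (c u)).filter (fun y => y ≠ x ∧ ¬ R.Adj x y))
        omega
      obtain ⟨y, hyS, hyu, hyx⟩ := hex
      have hclass : ∀ w ∈ A, f w = y → False := by
        intro w hw hfw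
        have h1 : f w ∈ S (c w) := hfS w hw
        rw [hfw] at h1
        have h2 : c w = c u := by
          by_contra hcon
          exact disjoint_left.1 (hS _ _ hcon) h1 hyS
        exact hyu (mem_image.2 ⟨w, mem_filter.2 ⟨hw, h2⟩, hfw⟩)
      have hyne : y ≠ x := fun e => hclass (D.par u) hpu (by rw [e])
      have hRxy : R.Adj x y := by
        by_contra hcon
        exact hyx ⟨hyne, hcon⟩
      refine ⟨insert u A, ?_, mem_insert_of_mem hcA, ?_, Function.update f u y, ?_, ?_, ?_⟩
      · rw [card_insert_of_notMem huA, hA]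
      · intro v hv hvc
        rcases mem_insert.1 hv with e | hvA
        · rw [e]; exact mem_insert_of_mem hpu
        · exact mem_insert_of_mem (hpA v hvA hvc)
      · intro a ha b hb hab
        rw [mem_coe, mem_insert] at ha hb
        rcases ha with e | haA
        · rcases hb with e' | hbA
          · rw [e, e']
          · exfalso
            have hbu : b ≠ u := fun e2 => huA (e2 ▸ hbA)
            rw [e, Function.update_self, Function.update_of_ne hbu] at hab
            exact hclass b hbA hab.symm
        · have hau : a ≠ u := fun e2 => huA (e2 ▸ haA)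
          rcases hb with e' | hbA
          · exfalso
            rw [e', Function.update_self, Function.update_of_ne hau] at hab
            exact hclass a haA hab
          · have hbu : b ≠ u := fun e2 => huA (e2 ▸ hbA)
            rw [Function.update_of_ne hau, Function.update_of_ne hbu] at hab
            exact hinj haA hbA hab
      · intro v hv
        rcases mem_insert.1 hv with e | hvA
        · rw [e, Function.update_self]; exact hyS
        · have hvu : v ≠ u := fun e2 => huA (e2 ▸ hvA)
          rw [Function.update_of_ne hvu]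
          exact hfS v hvA
      · intro v hv hvc
        have hpne : D.par u ≠ u := by
          intro e2
          apply huA
          rw [← e2]
          exact hpu
        rcases mem_insert.1 hv with e | hvA
        · rw [e, Function.update_self, Function.update_of_ne hpne]
          exact hRxy
        · have hvu : v ≠ u := fun e2 => huA (e2 ▸ hvA)
          have hpv : D.par v ≠ u := fun e2 => huA (e2 ▸ hpA v hvA hvc)
          rw [Function.update_of_ne hvu, Function.update_of_ne hpv]
          exact hadj v hvA hvc
  have hpos : 0 < Fintype.card W := Fintype.card_pos_iff.2 ⟨D.c⟩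
  obtain ⟨A, hA, -, -, f, hinj, hfS, hadj⟩ := key (Fintype.card W - 1) (by omega)
  have hAu : A = univ := by
    apply (card_eq_iff_eq_univ A).1
    omega
  subst hAu
  refine ⟨f, ?_, ?_, fun w => hfS w (mem_univ _)⟩
  · intro a b hab
    exact hinj (by simp) (by simp) hab
  · intro u v huv
    rcases (D.adj_iff u v).1 huv with ⟨h1, h2⟩ | ⟨h1, h2⟩
    · rw [h2]
      exact (hadj u (mem_univ _) h1).symm
    · rw [h2]
      exact hadj v (mem_univ _) h1

/-- No edge of `T` joins `D` to its complement, except edges at `w`. -/
def Hangs {W : Type*} (T : SimpleGraph W) (w : W) (D : Finset W) : Prop :=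
  w ∉ D ∧ ∀ x ∈ D, ∀ y, T.Adj x y → y ∈ D ∨ y = w

/-- If `w` has two neighbours in a set hanging at `w`, the set splits. -/
theorem hangs_split {W : Type*} [Fintype W] {T : SimpleGraph W} (hT : T.IsAcyclic) {w : W}
    {D : Finset W} (hD : Hangs T w D) {a b : W} (ha : a ∈ D) (hb : b ∈ D) (hab : a ≠ b)
    (hwa : T.Adj w a) (hwb : T.Adj w b) :
    ∃ D₁ D₂ : Finset W, D₁.Nonempty ∧ D₂.Nonempty ∧ D₁.card + D₂.card = D.card ∧
      Hangs T w D₁ ∧ Hangs T w D₂ := by
  classical
  let H := T.induce (D : Set W)
  let P : W → Prop := fun x => ∃ hx : x ∈ (D : Set W), H.Reachable ⟨a, ha⟩ ⟨x, hx⟩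
  have hPa : P a := ⟨ha, SimpleGraph.Reachable.refl _⟩
  have hPb : ¬ P b := by
    rintro ⟨hx, hreach⟩
    obtain ⟨q⟩ := hreach
    let q' : H.Path ⟨a, ha⟩ ⟨b, hx⟩ := q.toPath
    let p : T.Walk a b := q'.1.map (SimpleGraph.Embedding.induce (D : Set W)).toHom
    have hp : p.IsPath := by
      apply SimpleGraph.Walk.IsPath.map _ q'.2
      intro x y hxy
      exact Subtype.ext hxy
    let r : T.Walk a b := SimpleGraph.Walk.cons hwa.symm (SimpleGraph.Walk.cons hwb SimpleGraph.Walk.nil)
    have hr : r.IsPath := by
      have h1 : a ≠ w := hwa.ne'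
      have h2 : w ≠ b := hwb.ne
      simp [r, SimpleGraph.Walk.cons_isPath_iff, h1, h2, hab]
    have hss := hT.subsingleton_path a b
    have heq : (⟨p, hp⟩ : T.Path a b) = ⟨r, hr⟩ := Subsingleton.elim _ _
    have heq2 : p = r := congrArg Subtype.val heq
    have hw : w ∈ r.support := by simp [r]
    rw [← heq2] at hw
    have hw' : w ∈ (q'.1.map (SimpleGraph.Embedding.induce (D : Set W)).toHom).support := hw
    clear hw
    rename w ∈ _ => hw
    rw [SimpleGraph.Walk.support_map, List.mem_map] at hw
    obtain ⟨x, -, hx2⟩ := hw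
    apply hD.1
    have h3 : ((x : (D : Set W)) : W) = w := hx2
    rw [← h3]
    exact x.2
  have hstep : ∀ x y, x ∈ D → y ∈ D → T.Adj x y → P x → P y := by
    rintro x y hx hy hxy ⟨hx', hreach⟩
    refine ⟨hy, hreach.trans ?_⟩
    apply SimpleGraph.Adj.reachable
    exact hxy
  refine ⟨D.filter P, D.filter (fun x => ¬ P x), ⟨a, mem_filter.2 ⟨ha, hPa⟩⟩,
    ⟨b, mem_filter.2 ⟨hb, hPb⟩⟩, card_filter_add_card_filter_not _,
    ⟨fun hw => hD.1 (mem_filter.1 hw).1, ?_⟩, ⟨fun hw => hD.1 (mem_filter.1 hw).1, ?_⟩⟩
  · intro x hx y hxy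
    rw [mem_filter] at hx
    rcases hD.2 x hx.1 y hxy with h1 | h1
    · left
      exact mem_filter.2 ⟨h1, hstep x y hx.1 h1 hxy hx.2⟩
    · right; exact h1
  · intro x hx y hxy
    rw [mem_filter] at hx
    rcases hD.2 x hx.1 y hxy with h1 | h1
    · left
      exact mem_filter.2 ⟨h1, fun hy => hx.2 (hstep y x h1 hx.1 hxy.symm hy)⟩
    · right; exact h1

/-- Splitting a tree at a vertex: a union of branches at `w` of total size in `[t, 2t-1]`. -/
theorem exists_branches {W : Type*} [Fintype W] {T : SimpleGraph W} (hT : T.IsAcyclic)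
    {t : ℕ} (ht : 1 ≤ t) (htW : t < Fintype.card W) :
    ∃ (w : W) (D : Finset W), Hangs T w D ∧ t ≤ D.card ∧ D.card ≤ 2 * t - 1 := by
  classical
  have hex : ∃ k : ℕ, ∃ (w : W) (D : Finset W), Hangs T w D ∧ t ≤ D.card ∧ D.card = k := by
    have : Nonempty W := Fintype.card_pos_iff.1 (by omega)
    obtain ⟨w⟩ := this
    refine ⟨_, w, univ.erase w, ⟨by simp, ?_⟩, ?_, rfl⟩
    · intro x _ y _
      by_cases h : y = w
      · right; exact h
      · left; simp [h]
    · rw [card_erase_of_mem (mem_univ _), card_univ]; omega
  obtain ⟨w, D, hD, htD, hk⟩ := Nat.find_spec hex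
  have hmin : ∀ (w' : W) (D' : Finset W), Hangs T w' D' → t ≤ D'.card → D.card ≤ D'.card := by
    intro w' D' h1 h2
    rw [hk]
    exact Nat.find_min' hex ⟨w', D', h1, h2, rfl⟩
  refine ⟨w, D, hD, htD, ?_⟩
  by_contra hcon
  push Not at hcon
  by_cases htwo : ∃ a ∈ D, ∃ b ∈ D, a ≠ b ∧ T.Adj w a ∧ T.Adj w b
  · obtain ⟨a, ha, b, hb, hab, hwa, hwb⟩ := htwo
    obtain ⟨D₁, D₂, h1, h2, hc, h5, h6⟩ := hangs_split hT hD ha hb hab hwa hwb
    have hp1 := card_pos.2 h1
    have hp2 := card_pos.2 h2
    by_cases hd1 : t ≤ D₁.card
    · have := hmin w D₁ h5 hd1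
      omega
    · by_cases hd2 : t ≤ D₂.card
      · have := hmin w D₂ h6 hd2
        omega
      · omega
  · push Not at htwo
    by_cases hone : ∃ a ∈ D, T.Adj w a
    · obtain ⟨a, ha, hwa⟩ := hone
      have hh : Hangs T a (D.erase a) := by
        refine ⟨by simp, ?_⟩
        intro x hx y hxy
        rw [mem_erase] at hx
        by_cases hya : y = a
        · right; exact hya
        · left
          rw [mem_erase]
          refine ⟨hya, ?_⟩
          rcases hD.2 x hx.2 y hxy with h1 | h1
          · exact h1
          · exfalso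
            rw [h1] at hxy
            exact htwo a ha x hx.2 (Ne.symm hx.1) hwa hxy.symm
      have hce : (D.erase a).card = D.card - 1 := card_erase_of_mem ha
      have := hmin a (D.erase a) hh (by omega)
      omega
    · push Not at hone
      have hne : D.Nonempty := card_pos.1 (by omega)
      obtain ⟨a, ha⟩ := hne
      have hh : Hangs T a (D.erase a) := by
        refine ⟨by simp, ?_⟩
        intro x hx y hxy
        rw [mem_erase] at hx
        by_cases hya : y = a
        · right; exact hya
        · left
          rw [mem_erase]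
          refine ⟨hya, ?_⟩
          rcases hD.2 x hx.2 y hxy with h1 | h1
          · exact h1
          · exfalso
            rw [h1] at hxy
            exact hone x hx.2 hxy.symm
      have hce : (D.erase a).card = D.card - 1 := card_erase_of_mem ha
      have := hmin a (D.erase a) hh (by omega)
      omega

/-- The smaller colour class of a tree. -/
theorem exists_class {W : Type*} [Fintype W] {T : SimpleGraph W} (hT : T.IsTree) :
    ∃ P : Finset W, (∀ u v, T.Adj u v → (u ∈ P ↔ v ∉ P)) ∧ 2 * P.card ≤ Fintype.card W := by
  classical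
  obtain ⟨r⟩ := hT.connected.nonempty
  obtain ⟨D, -, -⟩ := exists_RT hT r
  have hpar : ∀ u v, T.Adj u v → (Even (D.dep u) ↔ ¬ Even (D.dep v)) := by
    intro u v huv
    rcases (D.adj_iff u v).1 huv with ⟨h1, h2⟩ | ⟨h1, h2⟩
    · have := D.dep_par u h1
      rw [← this, ← h2, Nat.even_add_one]
    · have := D.dep_par v h1
      rw [← this, ← h2, Nat.even_add_one, not_not]
  have hcard : (univ.filter (fun u => Even (D.dep u))).card +
      (univ.filter (fun u => ¬ Even (D.dep u))).card = Fintype.card W := by
    rw [card_filter_add_card_filter_not, card_univ]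
  by_cases hle : 2 * (univ.filter (fun u => Even (D.dep u))).card ≤ Fintype.card W
  · refine ⟨univ.filter (fun u => Even (D.dep u)), ?_, hle⟩
    intro u v huv
    simp only [mem_filter, mem_univ, true_and]
    exact hpar u v huv
  · refine ⟨univ.filter (fun u => ¬ Even (D.dep u)), ?_, by omega⟩
    intro u v huv
    simp only [mem_filter, mem_univ, true_and]
    have := hpar u v huv
    tauto

open scoped Classical in
/-- The degrees in one colour class sum up to the number of edges. -/
theorem sum_degree_class {W : Type*} [Fintype W] {T : SimpleGraph W} (hT : T.IsTree)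
    {P : Finset W} (hP : ∀ u v, T.Adj u v → (u ∈ P ↔ v ∉ P)) :
    ∑ v ∈ P, T.degree v + 1 = Fintype.card W := by
  have hb : T.IsBipartiteWith (P : Set W) ((Pᶜ : Finset W) : Set W) := by
    constructor
    · rw [disjoint_coe]; exact disjoint_compl_right
    · intro v w hvw
      have := hP v w hvw
      by_cases hv : v ∈ P
      · left
        refine ⟨hv, ?_⟩
        rw [mem_coe, mem_compl]
        exact this.1 hv
      · right
        rw [mem_coe, mem_compl, mem_coe]
        refine ⟨hv, ?_⟩
        by_contra hw
        exact hv (this.2 hw)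
  rw [SimpleGraph.isBipartiteWith_sum_degrees_eq_card_edges hb, hT.card_edgeFinset]

open scoped Classical in
/-- A colour class `Q` contains at least `|Q| - |W \ Q| + 1` leaves. -/
theorem card_leaves {W : Type*} [Fintype W] {T : SimpleGraph W} (hT : T.IsTree)
    (h2 : 2 ≤ Fintype.card W)
    {Q : Finset W} (hQ : ∀ u v, T.Adj u v → (u ∈ Q ↔ v ∉ Q)) :
    2 * Q.card + 1 ≤ (Q.filter (fun v => T.degree v = 1)).card + Fintype.card W := by
  have hs := sum_degree_class hT hQ
  have hpos : ∀ v, 1 ≤ T.degree v := by
    intro v
    have hnt : Nontrivial W := Fintype.one_lt_card_iff_nontrivial.1 (by omega)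
    exact hT.connected.preconnected.degree_pos_of_nontrivial v
  have h3 : ∀ v ∈ Q, 2 ≤ T.degree v + (if T.degree v = 1 then 1 else 0) := by
    intro v _
    have := hpos v
    split_ifs with h
    · omega
    · omega
  have h4 := sum_le_sum h3
  rw [sum_const, smul_eq_mul, sum_add_distrib, ← card_filter] at h4
  omega

open scoped Classical in
/-- At most `(|W|-1)/4` vertices of a colour class have degree at least `4`. -/
theorem card_degree_le_three {W : Type*} [Fintype W] {T : SimpleGraph W} (hT : T.IsTree)
    {P : Finset W} (hP : ∀ u v, T.Adj u v → (u ∈ P ↔ v ∉ P)) :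
    4 * P.card + 1 ≤ 4 * (P.filter (fun v => T.degree v ≤ 3)).card + Fintype.card W := by
  have hs := sum_degree_class hT hP
  have h3 : ∀ v ∈ P, 4 ≤ T.degree v + 4 * (if T.degree v ≤ 3 then 1 else 0) := by
    intro v _
    split_ifs with h
    · omega
    · omega
  have h4 := sum_le_sum h3
  rw [sum_const, smul_eq_mul, sum_add_distrib, ← mul_sum, ← card_filter] at h4
  omega

end Pool.Agent.Lib.MP_0e31aa_co
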