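import Mathlib

/-!
Paths of every length inside a nearly complete graph (lists, insertion lemma).
-/

open SimpleGraph

namespace TC.NC

variable {V : Type*} [DecidableEq V]

/-- A path of the graph `G` from `a` to `b`, given by the list of its vertices. -/
structure LPath (G : SimpleGraph V) (a b : V) (l : List V) : Prop where
  nodup : l.Nodup
  chain : l.IsChain G.Adj
  head : l.head? = some a
  last : l.getLast? = some b

/-- Every vertex of `H` has at most `c` non-neighbours in `H` (itself not counted). -/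
def NearComplete (G : SimpleGraph V) (H : Finset V) (c : ℕ) : Prop :=
  ∀ v ∈ H, ∀ S ⊆ H, v ∉ S → (∀ w ∈ S, ¬ G.Adj v w) → S.card ≤ c

omit [DecidableEq V] in
/-- Two consecutive good entries of a list with few bad entries. -/
theorem exists_good_pair (bad : V → Prop) [DecidablePred bad] :
    ∀ (k : ℕ) (l : List V), l.length ≤ k → 2 * l.countP bad + 2 ≤ l.length →
      ∃ (l1 : List V) (x y : V) (l2 : List V), l = l1 ++ x :: y :: l2 ∧ ¬ bad x ∧ ¬ bad y := by
  intro k
  induction k with
  | zero => intro l h1 h2; omega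
  | succ k ih =>
    intro l h1 h2
    match l, h1, h2 with
    | [], h1, h2 => simp at h2
    | [a], h1, h2 => simp at h2
    | a :: b :: t, h1, h2 =>
      by_cases ha : bad a
      · have hcount : (a :: b :: t).countP bad = (b :: t).countP bad + 1 := by
          rw [List.countP_cons]; simp [ha]
        obtain ⟨l1, x, y, l2, h, hx, hy⟩ := ih (b :: t) (by simp at h1 ⊢; omega)
          (by rw [hcount] at h2; simp at h2 ⊢; omega)
        exact ⟨a :: l1, x, y, l2, by rw [h]; rfl, hx, hy⟩
      · by_cases hb : bad b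
        · have hcount : (a :: b :: t).countP bad = t.countP bad + 1 := by
            rw [List.countP_cons, List.countP_cons]; simp [ha, hb]
          obtain ⟨l1, x, y, l2, h, hx, hy⟩ := ih t (by simp at h1 ⊢; omega)
            (by rw [hcount] at h2; simp at h2 ⊢; omega)
          exact ⟨a :: b :: l1, x, y, l2, by rw [h]; rfl, hx, hy⟩
        · exact ⟨[], a, b, t, rfl, ha, hb⟩

omit [DecidableEq V] in
/-- Inserting a vertex in a path. -/
theorem LPath.insert {G : SimpleGraph V} {a b : V} {l1 l2 : List V} {x y v : V}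
    (h : LPath G a b (l1 ++ x :: y :: l2)) (hv : v ∉ l1 ++ x :: y :: l2)
    (h1 : G.Adj x v) (h2 : G.Adj v y) :
    LPath G a b (l1 ++ x :: v :: y :: l2) ∧
      (l1 ++ x :: v :: y :: l2).Perm (v :: (l1 ++ x :: y :: l2)) := by
  have hperm : (l1 ++ x :: v :: y :: l2).Perm (v :: (l1 ++ x :: y :: l2)) := by
    have := List.perm_middle (a := v) (l₁ := l1 ++ [x]) (l₂ := y :: l2)
    simpa using this
  refine ⟨⟨?_, ?_, ?_, ?_⟩, hperm⟩
  · rw [hperm.nodup_iff]
    exact List.nodup_cons.2 ⟨hv, h.nodup⟩
  · have hc := h.chain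
    rw [List.isChain_append_cons_cons] at hc
    rw [List.isChain_append_cons_cons, List.isChain_cons_cons]
    exact ⟨hc.1, h1, h2, hc.2.2⟩
  · have := h.head
    cases l1 <;> simpa using this
  · have := h.last
    rw [← this]
    simp [List.getLast?_append, List.getLast?_cons_cons]

/-- One more vertex of `H` can be inserted in a path. -/
theorem grow {G : SimpleGraph V} {H : Finset V} {c r : ℕ} (hc : NearComplete G H c)
    {l : List V} {a b : V} (hl : LPath G a b l) (hr : l.countP (· ∉ H) ≤ r)
    (hk : 2 * r + 2 ≤ l.length) (hH : 4 * c + 2 * r + 2 ≤ H.card) (hu : ∃ v ∈ H, v ∉ l) :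
    ∃ l', LPath G a b l' ∧ ∃ v ∈ H, v ∉ l ∧ l'.Perm (v :: l) := by
  classical
  by_cases hlong : 2 * (c + r) + 2 ≤ l.length
  · obtain ⟨v, hvH, hvl⟩ := hu
    have hbad : l.countP (fun x => ¬ (x ∈ H ∧ G.Adj v x)) ≤ c + r := by
      have h1 : l.countP (fun x => ¬ (x ∈ H ∧ G.Adj v x)) ≤
          l.countP (fun x => x ∈ H ∧ ¬ G.Adj v x) + l.countP (· ∉ H) := by
        clear hl hr hk hlong hvl
        induction l with
        | nil => simp
        | cons z t ih =>
          simp only [List.countP_cons]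
          by_cases hz : z ∈ H <;> by_cases hz' : G.Adj v z <;> simp [hz, hz'] at ih ⊢ <;> omega
      have h2 : l.countP (fun x => x ∈ H ∧ ¬ G.Adj v x) ≤ c := by
        rw [List.countP_eq_length_filter]
        have hnd : (l.filter (fun x => x ∈ H ∧ ¬ G.Adj v x)).Nodup := hl.nodup.filter _
        rw [← List.toFinset_card_of_nodup hnd]
        apply hc v hvH
        · intro w hw
          simp at hw
          exact hw.2.1
        · intro hv
          simp at hv
          exact hvl hv.1
        · intro w hw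
          simp at hw
          exact hw.2.2
      omega
    obtain ⟨l1, x, y, l2, h, hx, hy⟩ := exists_good_pair
      (fun x => ¬ (x ∈ H ∧ G.Adj v x)) l.length l le_rfl (by omega)
    rw [not_not] at hx hy
    subst h
    obtain ⟨h3, h4⟩ := hl.insert hvl hx.2.symm hy.2
    exact ⟨_, h3, v, hvH, hvl, h4⟩
  · obtain ⟨l1, x, y, l2, h, hx, hy⟩ := exists_good_pair (· ∉ H) l.length l le_rfl (by omega)
    rw [not_not] at hx hy
    have hcx : (H.filter (fun w => w ≠ x ∧ ¬ G.Adj x w)).card ≤ c :=
      hc x hx _ (Finset.filter_subset _ _) (by simp) (fun w hw => (Finset.mem_filter.1 hw).2.2)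
    have hcy : (H.filter (fun w => w ≠ y ∧ ¬ G.Adj y w)).card ≤ c :=
      hc y hy _ (Finset.filter_subset _ _) (by simp) (fun w hw => (Finset.mem_filter.1 hw).2.2)
    have hxl : x ∈ l := by rw [h]; simp
    have hyl : y ∈ l := by rw [h]; simp
    have hex : ∃ v ∈ H, v ∉ l ∧ G.Adj x v ∧ G.Adj y v := by
      by_contra hcon
      push Not at hcon
      have hsub : H ⊆ H.filter (fun w => w ≠ x ∧ ¬ G.Adj x w) ∪
          H.filter (fun w => w ≠ y ∧ ¬ G.Adj y w) ∪ l.toFinset := by
        intro w hw
        simp only [Finset.mem_union, Finset.mem_filter, List.mem_toFinset]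
        by_contra hcon2
        push Not at hcon2
        have hwx : w ≠ x := fun he => hcon2.2 (he ▸ hxl)
        have hwy : w ≠ y := fun he => hcon2.2 (he ▸ hyl)
        exact hcon w hw hcon2.2 (hcon2.1.1 hw hwx) (hcon2.1.2 hw hwy)
      have h1 := Finset.card_le_card hsub
      have h2 := Finset.card_union_le (H.filter (fun w => w ≠ x ∧ ¬ G.Adj x w) ∪
        H.filter (fun w => w ≠ y ∧ ¬ G.Adj y w)) l.toFinset
      have h3 := Finset.card_union_le (H.filter (fun w => w ≠ x ∧ ¬ G.Adj x w))
        (H.filter (fun w => w ≠ y ∧ ¬ G.Adj y w))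
      have h4 := List.toFinset_card_le l
      omega
    obtain ⟨v, hvH, hvl, h1, h2⟩ := hex
    subst h
    obtain ⟨h3, h4⟩ := hl.insert hvl h1 h2.symm
    exact ⟨_, h3, v, hvH, hvl, h4⟩

/-- Growing a path to any length, up to all the vertices of `H` together with the vertices of the
path outside `H`. -/
theorem grow_to {G : SimpleGraph V} {H : Finset V} {c : ℕ} (hc : NearComplete G H c)
    {l : List V} {a b : V} (hl : LPath G a b l)
    (hk : 2 * l.countP (· ∉ H) + 2 ≤ l.length)
    (hH : 4 * c + 2 * l.countP (· ∉ H) + 2 ≤ H.card) (L : ℕ) (hL1 : l.length ≤ L)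
    (hL2 : L ≤ H.card + l.countP (· ∉ H)) :
    ∃ l', LPath G a b l' ∧ l'.length = L ∧ (∀ x ∈ l, x ∈ l') ∧ (∀ x ∈ l', x ∈ l ∨ x ∈ H) ∧
      l'.countP (· ∉ H) = l.countP (· ∉ H) := by
  classical
  induction L, hL1 using Nat.le_induction with
  | base => exact ⟨l, hl, rfl, fun x h => h, fun x h => Or.inl h, rfl⟩
  | succ L hL ih =>
    obtain ⟨l', h1, h2, h3, h4, h5⟩ := ih (by omega)
    have hu : ∃ v ∈ H, v ∉ l' := by
      by_contra hcon
      push Not at hcon
      have hsub : H ⊆ (l'.filter (· ∈ H)).toFinset := by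
        intro w hw
        simp [hcon w hw, hw]
      have h6 := Finset.card_le_card hsub
      have h7 := List.toFinset_card_le (l'.filter (· ∈ H))
      rw [← List.countP_eq_length_filter] at h7
      have h8 : l'.length = l'.countP (· ∈ H) + l'.countP (· ∉ H) := by
        have := List.length_eq_countP_add_countP (p := fun x => decide (x ∈ H)) (l := l')
        simpa using this
      omega
    obtain ⟨l'', h6, v, hvH, hvl, h7⟩ := grow (r := l.countP (· ∉ H)) hc h1 (by rw [h5])
      (by omega) hH hu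
    refine ⟨l'', h6, by rw [h7.length_eq]; simp [h2], fun x hx => ?_, fun x hx => ?_, ?_⟩
    · rw [h7.mem_iff]
      exact List.mem_cons_of_mem _ (h3 x hx)
    · rw [h7.mem_iff] at hx
      rcases List.mem_cons.1 hx with rfl | hx
      · exact Or.inr hvH
      · exact h4 x hx
    · rw [h7.countP_eq, List.countP_cons, h5]
      simp [hvH]

/-- Finding a common neighbour outside a small set. -/
theorem exists_common {G : SimpleGraph V} {H : Finset V} {c : ℕ} (hc : NearComplete G H c)
    {a b : V} (ha : a ∈ H) (hb : b ∈ H) (F : Finset V) (hF : 2 * c + F.card + 2 < H.card) :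
    ∃ v ∈ H, v ∉ F ∧ G.Adj a v ∧ G.Adj b v := by
  classical
  have hcx : (H.filter (fun w => w ≠ a ∧ ¬ G.Adj a w)).card ≤ c :=
    hc a ha _ (Finset.filter_subset _ _) (by simp) (fun w hw => (Finset.mem_filter.1 hw).2.2)
  have hcy : (H.filter (fun w => w ≠ b ∧ ¬ G.Adj b w)).card ≤ c :=
    hc b hb _ (Finset.filter_subset _ _) (by simp) (fun w hw => (Finset.mem_filter.1 hw).2.2)
  by_contra hcon
  push Not at hcon
  have hsub : H ⊆ H.filter (fun w => w ≠ a ∧ ¬ G.Adj a w) ∪
      H.filter (fun w => w ≠ b ∧ ¬ G.Adj b w) ∪ (F ∪ {a, b}) := by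
    intro w hw
    simp only [Finset.mem_union, Finset.mem_filter, Finset.mem_insert, Finset.mem_singleton]
    by_contra hcon2
    push Not at hcon2
    exact hcon w hw hcon2.2.1 (hcon2.1.1 hw hcon2.2.2.1) (hcon2.1.2 hw hcon2.2.2.2)
  have h1 := Finset.card_le_card hsub
  have h2 := Finset.card_union_le (H.filter (fun w => w ≠ a ∧ ¬ G.Adj a w) ∪
    H.filter (fun w => w ≠ b ∧ ¬ G.Adj b w)) (F ∪ {a, b})
  have h3 := Finset.card_union_le (H.filter (fun w => w ≠ a ∧ ¬ G.Adj a w))
    (H.filter (fun w => w ≠ b ∧ ¬ G.Adj b w))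
  have h4 := Finset.card_union_le F {a, b}
  have h5 := Finset.card_le_two (a := a) (b := b)
  omega

/-- Paths with any number of vertices between two vertices of a nearly complete set. -/
theorem path_all {G : SimpleGraph V} {H : Finset V} {c : ℕ} (hc : NearComplete G H c)
    (hH : 4 * c + 4 ≤ H.card) {a b : V} (ha : a ∈ H) (hb : b ∈ H) (hab : a ≠ b) (L : ℕ)
    (hL1 : 3 ≤ L) (hL2 : L ≤ H.card) :
    ∃ l, LPath G a b l ∧ l.length = L ∧ ∀ x ∈ l, x ∈ H := by
  classical
  obtain ⟨v, hvH, -, h1, h2⟩ := exists_common hc ha hb ∅ (by simp; omega)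
  have hl : LPath G a b [a, v, b] := by
    refine ⟨?_, ?_, rfl, rfl⟩
    · have := h1.ne
      have := h2.ne
      simp_all [eq_comm]
    · simp [h1, h2.symm]
  have h0 : [a, v, b].countP (· ∉ H) = 0 := by
    simp [ha, hvH, hb]
  obtain ⟨l', h3, h4, -, h6, -⟩ := grow_to hc hl (by rw [h0]; simp) (by rw [h0]; omega) L
    (by simpa using hL1) (by rw [h0]; omega)
  refine ⟨l', h3, h4, fun x hx => ?_⟩
  rcases h6 x hx with h | h
  · simp at h
    rcases h with rfl | rfl | rfl <;> assumption
  · exact h

end TC.NC
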