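import Mathlib
import Pool.Agent.Lib.MP_0e31aa_co.NC1

/-!
Cycles from lists; cycles through cherries, and cycles through two nearly complete blocks.
-/

open SimpleGraph

namespace TC.NC

variable {V : Type*}

/-- A cycle of the graph `G`, given by the list of its vertices. -/
structure LCycle (G : SimpleGraph V) (l : List V) : Prop where
  nodup : l.Nodup
  chain : l.IsChain G.Adj
  len : 3 ≤ l.length
  close : ∀ a b, l.head? = some a → l.getLast? = some b → G.Adj b a

theorem LPath.cycle {G : SimpleGraph V} {a b : V} {l : List V} (h : LPath G a b l)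
    (h3 : 3 ≤ l.length) (hab : G.Adj b a) : LCycle G l := by
  refine ⟨h.nodup, h.chain, h3, fun a' b' ha' hb' => ?_⟩
  rw [h.head] at ha'
  rw [h.last] at hb'
  cases ha'; cases hb'; exact hab

/-- A list cycle gives a copy of the cycle graph. -/
theorem LCycle.isContained {G : SimpleGraph V} {l : List V} (h : LCycle G l) :
    (cycleGraph l.length).IsContained G := by
  classical
  have h3 := h.len
  have hinj : Function.Injective (fun i : Fin l.length => l[i.1]) := by
    intro i j hij
    exact Fin.ext ((h.nodup.getElem_inj_iff).1 hij)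
  have hchain : ∀ i (hi : i + 1 < l.length), G.Adj l[i] l[i + 1] :=
    List.isChain_iff_getElem.1 h.chain
  have hclose : G.Adj l[l.length - 1] l[0] := by
    apply h.close
    · rw [List.head?_eq_getElem?, List.getElem?_eq_getElem]
    · rw [List.getLast?_eq_getElem?, List.getElem?_eq_getElem]
  refine ⟨⟨⟨fun i => l[i.1], ?_⟩, hinj⟩⟩
  intro x y hab
  have hne : x ≠ y := hab.ne
  wlog hle : x > y
  · exact (this h h3 hinj hchain hclose hab.symm hne.symm
      (lt_of_le_of_ne (not_lt.1 hle) hne)).symm
  have hlt : y.1 < x.1 := hle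
  rcases cycleGraph_adj'.mp hab with hab | hab
  · rw [Fin.sub_val_of_le hle.le] at hab
    have hx : x.1 = y.1 + 1 := by omega
    have := hchain y.1 (by rw [← hx]; exact x.2)
    simp only [hx]
    exact this.symm
  · rw [Fin.coe_sub_iff_lt.mpr hle] at hab
    have h1 := x.2
    have hx : x.1 = l.length - 1 := by omega
    have hy : y.1 = 0 := by omega
    simp only [hx, hy]
    exact hclose

theorem LPath.append {G : SimpleGraph V} {a b c d : V} {l l' : List V} (h : LPath G a b l)
    (h' : LPath G c d l') (hbc : G.Adj b c) (hd : ∀ x ∈ l, x ∉ l') :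
    LPath G a d (l ++ l') := by
  refine ⟨?_, ?_, ?_, ?_⟩
  · rw [List.nodup_append]
    exact ⟨h.nodup, h'.nodup, fun x hx y hy hxy => hd x hx (hxy ▸ hy)⟩
  · rw [List.isChain_append]
    refine ⟨h.chain, h'.chain, fun x hx y hy => ?_⟩
    rw [h.last] at hx
    rw [h'.head] at hy
    cases hx; cases hy; exact hbc
  · rw [List.head?_append, h.head]; rfl
  · rw [List.getLast?_append, h'.last]; rfl

theorem LPath.cons {G : SimpleGraph V} {a b c : V} {l : List V} (h : LPath G a b l)
    (hca : G.Adj c a) (hc : c ∉ l) : LPath G c b (c :: l) := by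
  have h1 : LPath G c c [c] := ⟨List.nodup_singleton c, List.isChain_singleton c, rfl, rfl⟩
  exact h1.append h hca (by simpa using hc)

theorem LPath.reverse {G : SimpleGraph V} {a b : V} {l : List V} (h : LPath G a b l) :
    LPath G b a l.reverse := by
  refine ⟨List.nodup_reverse.2 h.nodup, ?_, ?_, ?_⟩
  · rw [List.isChain_reverse]
    exact h.chain.imp (fun _ _ hab => hab.symm)
  · rw [List.head?_reverse, h.last]
  · rw [List.getLast?_reverse, h.head]

/-- The list of the vertices of a list of cherries. -/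
def cherryVerts (cs : List (V × V × V)) : List V := cs.flatMap (fun t => [t.1, t.2.1, t.2.2])

variable [DecidableEq V]

/-- A path through given cherries. -/
theorem cherry_path {G : SimpleGraph V} {H : Finset V} {c : ℕ} (hc : NearComplete G H c) :
    ∀ (cs : List (V × V × V)), (cherryVerts cs).Nodup →
      (∀ t ∈ cs, t.1 ∈ H ∧ t.2.1 ∉ H ∧ t.2.2 ∈ H ∧ G.Adj t.1 t.2.1 ∧ G.Adj t.2.1 t.2.2) →
      ∀ (a b : V) (F : Finset V), a ∈ H → b ∈ H → a ≠ b → a ∉ F → b ∉ F →
      a ∉ cherryVerts cs → b ∉ cherryVerts cs → (∀ x ∈ F, x ∉ cherryVerts cs) →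
      2 * c + F.card + 4 * cs.length + 4 < H.card →
      ∃ l, LPath G a b l ∧ l.length = 4 * cs.length + 3 ∧ l.countP (· ∉ H) = cs.length ∧
        (∀ x ∈ l, x ∉ F) ∧ (∀ x ∈ l, x ∈ H ∨ x ∈ cherryVerts cs) ∧
        (∀ x ∈ cherryVerts cs, x ∈ l) := by
  classical
  intro cs
  induction cs with
  | nil =>
    intro _ _ a b F ha hb hab haF hbF _ _ _ hF
    obtain ⟨v, hvH, hvF, h1, h2⟩ := exists_common hc ha hb F (by simp at hF; omega)
    have hl : LPath G a b [a, v, b] := by
      refine ⟨?_, ?_, rfl, rfl⟩
      · have := h1.ne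
        have := h2.ne
        simp_all [eq_comm]
      · simp [h1, h2.symm]
    refine ⟨_, hl, by simp, by simp [ha, hvH, hb], ?_, ?_, ?_⟩
    · intro x hx
      simp at hx
      rcases hx with rfl | rfl | rfl <;> assumption
    · intro x hx
      simp at hx
      rcases hx with rfl | rfl | rfl <;> exact Or.inl (by assumption)
    · intro x hx
      simp [cherryVerts] at hx
  | cons t cs ih =>
    obtain ⟨u, z, u'⟩ := t
    intro hnd hin a b F ha hb hab haF hbF hac hbc hFc hF
    have hcv : cherryVerts ((u, z, u') :: cs) = u :: z :: u' :: cherryVerts cs := by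
      simp [cherryVerts]
    rw [hcv] at hnd hac hbc hFc
    obtain ⟨huH, hzH, huH', huz, hzu⟩ := hin (u, z, u') (by simp)
    simp only at huH hzH huH' huz hzu
    have hlen3 : (cherryVerts cs).length = 3 * cs.length := by
      clear ih hnd hin hac hbc hFc hF hcv
      induction cs with
      | nil => simp [cherryVerts]
      | cons t cs ih =>
        simp only [cherryVerts, List.flatMap_cons, List.length_append, List.length_cons,
          List.length_nil] at ih ⊢
        omega
    obtain ⟨w, hwH, hwF, haw, huw⟩ := exists_common hc ha huH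
      (F ∪ {b} ∪ (cherryVerts ((u, z, u') :: cs)).toFinset) (by
        have h1 := Finset.card_union_le (F ∪ {b}) (cherryVerts ((u, z, u') :: cs)).toFinset
        have h2 := Finset.card_union_le F {b}
        have h3 := List.toFinset_card_le (cherryVerts ((u, z, u') :: cs))
        rw [hcv] at h1 h3
        rw [hcv]
        simp only [List.length_cons] at h3 hF
        rw [Finset.card_singleton] at h2
        omega)
    rw [hcv] at hwF
    simp only [Finset.mem_union, Finset.mem_singleton, List.mem_toFinset, List.mem_cons,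
      not_or] at hwF
    obtain ⟨⟨hwF, hwb⟩, hwu, hwz, hwu', hwc⟩ := hwF
    simp only [List.mem_cons, not_or] at hac hbc hFc
    simp only [List.nodup_cons, List.mem_cons, not_or] at hnd
    obtain ⟨hac1, hac2, hac3, hac4⟩ := hac
    obtain ⟨hbc1, hbc2, hbc3, hbc4⟩ := hbc
    obtain ⟨⟨huz', huu', huc⟩, ⟨hzu', hzc⟩, hu'c, hnd'⟩ := hnd
    obtain ⟨l, h1, h2, h3, h4, h5, h6⟩ := ih hnd' (fun t ht => hin t (List.mem_cons_of_mem _ ht))
      u' b (F ∪ {a, w, u, z}) huH' hb (Ne.symm hbc3)
      (by
        simp only [Finset.mem_union, Finset.mem_insert, Finset.mem_singleton, not_or]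
        exact ⟨fun h => (hFc u' h).2.2.1 rfl, Ne.symm hac3, Ne.symm hwu', Ne.symm huu',
          Ne.symm hzu'⟩)
      (by
        simp only [Finset.mem_union, Finset.mem_insert, Finset.mem_singleton, not_or]
        exact ⟨hbF, Ne.symm hab, Ne.symm hwb, hbc1, hbc2⟩)
      hu'c hbc4
      (by
        intro x hx
        simp only [Finset.mem_union, Finset.mem_insert, Finset.mem_singleton] at hx
        rcases hx with hx | rfl | rfl | rfl | rfl
        · exact (hFc x hx).2.2.2
        all_goals assumption)
      (by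
        have h1 := Finset.card_union_le F {a, w, u, z}
        have h2 := Finset.card_le_four (a := a) (b := w) (c := u) (d := z)
        simp only [List.length_cons] at hF
        omega)
    have hal : a ∉ l := fun h => h4 a h (by simp)
    have hwl : w ∉ l := fun h => h4 w h (by simp)
    have hul : u ∉ l := fun h => h4 u h (by simp)
    have hzl : z ∉ l := fun h => h4 z h (by simp)
    have p1 := h1.cons hzu hzl
    have p2 := p1.cons huz (by simp only [List.mem_cons, not_or]; exact ⟨huz', hul⟩)
    have p3 := p2.cons huw.symm (by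
      simp only [List.mem_cons, not_or]; exact ⟨hwu, hwz, hwl⟩)
    have p4 := p3.cons haw (by
      simp only [List.mem_cons, not_or]; exact ⟨haw.ne, hac1, hac2, hal⟩)
    refine ⟨_, p4, ?_, ?_, ?_, ?_, ?_⟩
    · simp only [List.length_cons, h2]; omega
    · simpa [ha, hwH, huH, hzH] using h3
    · intro x hx
      simp only [List.mem_cons] at hx
      rcases hx with rfl | rfl | rfl | rfl | hx
      · exact haF
      · exact hwF
      · exact fun h => (hFc _ h).1 rfl
      · exact fun h => (hFc _ h).2.1 rfl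
      · exact fun h => h4 x hx (Finset.mem_union_left _ h)
    · intro x hx
      rw [hcv]
      simp only [List.mem_cons] at hx ⊢
      rcases hx with rfl | rfl | rfl | rfl | hx
      · exact Or.inl ha
      · exact Or.inl hwH
      · exact Or.inl huH
      · exact Or.inr (Or.inr (Or.inl rfl))
      · rcases h5 x hx with h | h
        · exact Or.inl h
        · exact Or.inr (Or.inr (Or.inr (Or.inr h)))
    · intro x hx
      rw [hcv] at hx
      simp only [List.mem_cons] at hx ⊢
      rcases hx with rfl | rfl | rfl | hx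
      · exact Or.inr (Or.inr (Or.inl rfl))
      · exact Or.inr (Or.inr (Or.inr (Or.inl rfl)))
      · refine Or.inr (Or.inr (Or.inr (Or.inr ?_)))
        have := h1.head
        exact List.mem_of_mem_head? this
      · exact Or.inr (Or.inr (Or.inr (Or.inr (h6 x hx))))

/-- Cycles of every length through given cherries in a nearly complete graph: up to all vertices
of `H` and one more vertex for every cherry. -/
theorem cherry_cycle {G : SimpleGraph V} {H : Finset V} {c : ℕ} (hc : NearComplete G H c)
    (cs : List (V × V × V)) (hnd : (cherryVerts cs).Nodup)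
    (hin : ∀ t ∈ cs, t.1 ∈ H ∧ t.2.1 ∉ H ∧ t.2.2 ∈ H ∧ G.Adj t.1 t.2.1 ∧ G.Adj t.2.1 t.2.2)
    (hH : 4 * c + 4 * cs.length + 5 ≤ H.card) (L : ℕ)
    (hL1 : 4 * cs.length + 3 ≤ L) (hL2 : L ≤ H.card + cs.length) :
    ∃ l, LCycle G l ∧ l.length = L := by
  classical
  have hlen3 : (cherryVerts cs).length = 3 * cs.length := by
    clear hnd hin hH hL1 hL2
    induction cs with
    | nil => simp [cherryVerts]
    | cons t cs ih =>
      simp only [cherryVerts, List.flatMap_cons, List.length_append, List.length_cons,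
        List.length_nil] at ih ⊢
      omega
  have h0 := List.toFinset_card_le (cherryVerts cs)
  obtain ⟨a, haH, hac⟩ : ∃ a ∈ H, a ∉ (cherryVerts cs).toFinset := by
    apply Finset.exists_mem_notMem_of_card_lt_card
    omega
  obtain ⟨b, hbH, hbc, hab, -⟩ := exists_common hc haH haH (cherryVerts cs).toFinset (by omega)
  rw [List.mem_toFinset] at hac hbc
  obtain ⟨l, h1, h2, h3, -, -, -⟩ := cherry_path hc cs hnd hin a b ∅ haH hbH hab.ne
    (by simp) (by simp) hac hbc (by simp) (by simp only [Finset.card_empty]; omega)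
  obtain ⟨l', h4, h5, -, -, -⟩ := grow_to hc h1 (by rw [h3]; omega) (by rw [h3]; omega) L
    (by omega) (by rw [h3]; omega)
  exact ⟨l', h4.cycle (by omega) hab.symm, h5⟩

/-- Cycles in a nearly complete set. -/
theorem cycle_all {G : SimpleGraph V} {H : Finset V} {c : ℕ} (hc : NearComplete G H c)
    (hH : 4 * c + 5 ≤ H.card) (L : ℕ) (hL1 : 3 ≤ L) (hL2 : L ≤ H.card) :
    ∃ l, LCycle G l ∧ l.length = L :=
  cherry_cycle hc [] (by simp [cherryVerts]) (by simp) (by simpa using hH) L (by simpa using hL1)
    (by simpa using hL2)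

omit [DecidableEq V] in
/-- Joining two paths through a connecting list. -/
theorem LPath.join {G : SimpleGraph V} {a b c d : V} {l l' t : List V} (h : LPath G a b l)
    (h' : LPath G c d l') (ht : (b :: t ++ [c]).IsChain G.Adj) (htn : t.Nodup)
    (hd : ∀ x ∈ l, x ∉ l') (hd1 : ∀ x ∈ t, x ∉ l) (hd2 : ∀ x ∈ t, x ∉ l') :
    LPath G a d (l ++ t ++ l') := by
  induction t using List.reverseRecOn generalizing c l' with
  | nil =>
    rw [List.append_nil]
    exact h.append h' (by simpa using ht) hd
  | append_singleton t z ih =>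
    have hzl' : z ∉ l' := hd2 z (by simp)
    have h1 : (b :: t ++ [z]).IsChain G.Adj ∧ G.Adj z c := by
      have h2 : b :: (t ++ [z]) ++ [c] = (b :: t) ++ z :: c :: [] := by simp
      rw [h2, List.isChain_append_cons_cons] at ht
      exact ⟨ht.1, ht.2.1⟩
    have h3 := ih (h'.cons h1.2 hzl') h1.1 (List.Nodup.of_append_left htn)
      (by
        intro x hx hx'
        rcases List.mem_cons.1 hx' with rfl | hx'
        · exact hd1 x (by simp) hx
        · exact hd x hx hx')
      (fun x hx => hd1 x (by simp [hx]))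
      (by
        intro x hx hx'
        rcases List.mem_cons.1 hx' with rfl | hx'
        · rw [List.nodup_append] at htn
          exact htn.2.2 x hx x (by simp) rfl
        · exact hd2 x (by simp [hx]) hx')
    simpa using h3

/-- Cycles through two nearly complete blocks and two disjoint connectors. -/
theorem two_block_cycle {G : SimpleGraph V} {U₁ U₂ : Finset V} {c : ℕ}
    (h1 : NearComplete G U₁ c) (h2 : NearComplete G U₂ c) (hd : Disjoint U₁ U₂)
    (hU1 : 4 * c + 4 ≤ U₁.card) (hU2 : 4 * c + 4 ≤ U₂.card)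
    {a₁ a₂ b₁ b₂ : V} (ha1 : a₁ ∈ U₁) (ha2 : a₂ ∈ U₂) (hb1 : b₁ ∈ U₁) (hb2 : b₂ ∈ U₂)
    (hab1 : a₁ ≠ b₁) (hab2 : a₂ ≠ b₂) (s t : List V)
    (hs : (a₁ :: s ++ [a₂]).IsChain G.Adj) (ht : (b₁ :: t ++ [b₂]).IsChain G.Adj)
    (hsn : s.Nodup) (htn : t.Nodup) (hst : ∀ x ∈ s, x ∉ t)
    (hsU : ∀ x ∈ s, x ∉ U₁ ∧ x ∉ U₂) (htU : ∀ x ∈ t, x ∉ U₁ ∧ x ∉ U₂)
    (L : ℕ) (hL1 : 6 + s.length + t.length ≤ L)
    (hL2 : L ≤ U₁.card + U₂.card + s.length + t.length) :
    ∃ l, LCycle G l ∧ l.length = L := by
  classical
  -- the numbers of vertices in the two blocks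
  obtain ⟨L1, L2, hL3, hL4, hL5, hL6, hL7⟩ : ∃ L1 L2, 3 ≤ L1 ∧ L1 ≤ U₁.card ∧ 3 ≤ L2 ∧
      L2 ≤ U₂.card ∧ L1 + L2 + s.length + t.length = L := by
    by_cases h : L ≤ U₁.card + 3 + s.length + t.length
    · exact ⟨L - 3 - s.length - t.length, 3, by omega, by omega, le_rfl, by omega, by omega⟩
    · exact ⟨U₁.card, L - U₁.card - s.length - t.length, by omega, le_rfl, by omega, by omega,
        by omega⟩
  obtain ⟨l1, p1, q1, r1⟩ := path_all h1 hU1 ha1 hb1 hab1 L1 hL3 hL4
  obtain ⟨l2, p2, q2, r2⟩ := path_all h2 hU2 hb2 ha2 (Ne.symm hab2) L2 hL5 hL6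
  have p3 : LPath G a₁ a₂ (l1 ++ t ++ l2) := p1.join p2 ht htn
    (fun x hx hx' => Finset.disjoint_left.1 hd (r1 x hx) (r2 x hx'))
    (fun x hx hx' => (htU x hx).1 (r1 x hx')) (fun x hx hx' => (htU x hx).2 (r2 x hx'))
  have hlen : (s.reverse ++ (l1 ++ t ++ l2)).length = L := by
    simp only [List.length_append, List.length_reverse]; omega
  refine ⟨s.reverse ++ (l1 ++ t ++ l2), ⟨?_, ?_, by omega, ?_⟩, hlen⟩
  · rw [List.nodup_append]
    refine ⟨List.nodup_reverse.2 hsn, p3.nodup, ?_⟩
    rintro x hx y hy rfl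
    rw [List.mem_reverse] at hx
    simp only [List.mem_append] at hy
    rcases hy with (hy | hy) | hy
    · exact (hsU x hx).1 (r1 x hy)
    · exact hst x hx hy
    · exact (hsU x hx).2 (r2 x hy)
  · have h5 : (s.reverse ++ [a₁]).IsChain G.Adj := by
      have h6 : (a₁ :: s).IsChain G.Adj := hs.left_of_append
      have h7 : (a₁ :: s).reverse.IsChain G.Adj := by
        rw [List.isChain_reverse]
        exact h6.imp (fun _ _ h => h.symm)
      simpa using h7
    rw [List.isChain_append] at h5 ⊢
    refine ⟨h5.1, p3.chain, fun x hx y hy => ?_⟩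
    rw [p3.head] at hy
    cases hy
    exact h5.2.2 x hx a₁ (by simp)
  · intro a b ha hb
    rw [List.getLast?_append, p3.last] at hb
    simp only [Option.some_or, Option.some.injEq] at hb
    subst hb
    have h6 : (a₁ :: s ++ [a₂]).reverse.IsChain G.Adj := by
      rw [List.isChain_reverse]
      exact hs.imp (fun _ _ h => h.symm)
    have h7 : (a₁ :: s ++ [a₂]).reverse = a₂ :: (s.reverse ++ [a₁]) := by simp
    rw [h7, List.isChain_cons] at h6
    apply h6.1 a
    rw [List.head?_append, p3.head] at ha
    rw [List.head?_append]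
    simpa using ha

end TC.NC
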