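import Mathlib
import Pool.Agent.Lib.MP_0e31aa_co.NC2

/-!
Nearly complete bipartite graphs: paths and odd cycles.
-/

open SimpleGraph

namespace TC.NC

variable {V : Type*} [DecidableEq V]

/-- Every vertex of `X` has at most `c` non-neighbours in `Y`. -/
def NearFull (G : SimpleGraph V) (X Y : Finset V) (c : ℕ) : Prop :=
  ∀ v ∈ X, ∀ S ⊆ Y, (∀ w ∈ S, ¬ G.Adj v w) → S.card ≤ c

omit [DecidableEq V] in
theorem NearFull.mono {G : SimpleGraph V} {X Y X' Y' : Finset V} {c c' : ℕ}
    (h : NearFull G X Y c) (hX : X' ⊆ X) (hY : Y' ⊆ Y) (hc : c ≤ c') : NearFull G X' Y' c' :=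
  fun v hv S hS hS' => (h v (hX hv) S (hS.trans hY) hS').trans hc

omit [DecidableEq V] in
theorem NearComplete.mono {G : SimpleGraph V} {H H' : Finset V} {c c' : ℕ}
    (h : NearComplete G H c) (hH : H' ⊆ H) (hc : c ≤ c') : NearComplete G H' c' :=
  fun v hv S hS hv' hS' => (h v (hH hv) S (hS.trans hH) hv' hS').trans hc

/-- A neighbour outside a small set. -/
theorem NearFull.exists_adj {G : SimpleGraph V} {X Y : Finset V} {c : ℕ}
    (h : NearFull G X Y c) {a : V} (ha : a ∈ X) (F : Finset V) (hF : c + (F ∩ Y).card < Y.card) :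
    ∃ v ∈ Y, v ∉ F ∧ G.Adj a v := by
  classical
  by_contra hcon
  push Not at hcon
  have h1 : (Y.filter (fun w => ¬ G.Adj a w)).card ≤ c :=
    h a ha _ (Finset.filter_subset _ _) (fun w hw => (Finset.mem_filter.1 hw).2)
  have hsub : Y ⊆ Y.filter (fun w => ¬ G.Adj a w) ∪ (F ∩ Y) := by
    intro w hw
    simp only [Finset.mem_union, Finset.mem_filter, Finset.mem_inter]
    by_contra hcon2
    push Not at hcon2
    exact hcon w hw (fun h => hcon2.2 h hw) (hcon2.1 hw)
  have h2 := Finset.card_le_card hsub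
  have h3 := Finset.card_union_le (Y.filter (fun w => ¬ G.Adj a w)) (F ∩ Y)
  omega

/-- A common neighbour outside a small set. -/
theorem NearFull.exists_adj_two {G : SimpleGraph V} {X Y : Finset V} {c : ℕ}
    (h : NearFull G X Y c) {a b : V} (ha : a ∈ X) (hb : b ∈ X) (F : Finset V)
    (hF : 2 * c + (F ∩ Y).card < Y.card) :
    ∃ v ∈ Y, v ∉ F ∧ G.Adj a v ∧ G.Adj b v := by
  classical
  by_contra hcon
  push Not at hcon
  have h1 : (Y.filter (fun w => ¬ G.Adj a w)).card ≤ c :=
    h a ha _ (Finset.filter_subset _ _) (fun w hw => (Finset.mem_filter.1 hw).2)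
  have h1' : (Y.filter (fun w => ¬ G.Adj b w)).card ≤ c :=
    h b hb _ (Finset.filter_subset _ _) (fun w hw => (Finset.mem_filter.1 hw).2)
  have hsub : Y ⊆ Y.filter (fun w => ¬ G.Adj a w) ∪ Y.filter (fun w => ¬ G.Adj b w) ∪
      (F ∩ Y) := by
    intro w hw
    simp only [Finset.mem_union, Finset.mem_filter, Finset.mem_inter]
    by_contra hcon2
    push Not at hcon2
    exact hcon w hw (fun h => hcon2.2 h hw) (hcon2.1.1 hw) (hcon2.1.2 hw)
  have h2 := Finset.card_le_card hsub
  have h3 := Finset.card_union_le (Y.filter (fun w => ¬ G.Adj a w) ∪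
    Y.filter (fun w => ¬ G.Adj b w)) (F ∩ Y)
  have h4 := Finset.card_union_le (Y.filter (fun w => ¬ G.Adj a w))
    (Y.filter (fun w => ¬ G.Adj b w))
  omega

theorem card_inter_insert_le (F Y : Finset V) (a : V) :
    (insert a F ∩ Y).card ≤ (F ∩ Y).card + 1 := by
  classical
  have : insert a F ∩ Y ⊆ insert a (F ∩ Y) := by
    intro x hx
    simp only [Finset.mem_inter, Finset.mem_insert] at hx ⊢
    tauto
  exact (Finset.card_le_card this).trans (Finset.card_insert_le _ _)

theorem card_inter_insert_notMem {F Y : Finset V} {a : V} (ha : a ∉ Y) :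
    (insert a F ∩ Y).card = (F ∩ Y).card := by
  rw [Finset.insert_inter_of_notMem ha]

/-- Paths with an even number of vertices between the two sides of a nearly complete bipartite
graph, avoiding a set. -/
theorem bip_path_avoid {G : SimpleGraph V} {X Y : Finset V} {c : ℕ}
    (h1 : NearFull G X Y c) (h2 : NearFull G Y X c) (hd : Disjoint X Y) :
    ∀ (j : ℕ), 2 ≤ j → ∀ (a b : V) (F : Finset V), a ∈ X → b ∈ Y → a ∉ F → b ∉ F →
      2 * c + (F ∩ X).card + j < X.card + 1 → 2 * c + (F ∩ Y).card + j < Y.card + 1 →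
      ∃ l, LPath G a b l ∧ l.length = 2 * j ∧ (∀ x ∈ l, x ∈ X ∨ x ∈ Y) ∧ (∀ x ∈ l, x ∉ F) := by
  classical
  intro j hj
  induction j, hj using Nat.le_induction with
  | base =>
    intro a b F ha hb haF hbF hX hY
    have haY : a ∉ Y := fun h => Finset.disjoint_left.1 hd ha h
    have hbX : b ∉ X := fun h => Finset.disjoint_left.1 hd h hb
    obtain ⟨y, hyY, hyF, hay⟩ := h1.exists_adj ha (insert b F) (by
      have := card_inter_insert_le F Y b
      omega)
    simp only [Finset.mem_insert, not_or] at hyF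
    obtain ⟨x, hxX, hxF, hyx, hbx⟩ := h2.exists_adj_two hyY hb (insert a F) (by
      have := card_inter_insert_le F X a
      omega)
    simp only [Finset.mem_insert, not_or] at hxF
    have hxy : x ≠ y := fun h => Finset.disjoint_left.1 hd hxX (h ▸ hyY)
    have hab : a ≠ b := fun h => haY (h ▸ hb)
    have hxb : x ≠ b := hbx.ne'
    refine ⟨[a, y, x, b], ⟨?_, ?_, rfl, rfl⟩, rfl, ?_, ?_⟩
    · have e1 := hay.ne
      have e2 := hyF.1
      have e3 := hxF.1
      simp only [List.nodup_cons, List.mem_cons, List.not_mem_nil, or_false, not_or,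
        not_false_eq_true, List.nodup_nil, and_true]
      exact ⟨⟨e1, Ne.symm e3, hab⟩, ⟨Ne.symm hxy, e2⟩, hxb⟩
    · simp [hay, hyx, hbx.symm]
    · intro z hz
      simp at hz
      rcases hz with rfl | rfl | rfl | rfl
      · exact Or.inl ha
      · exact Or.inr hyY
      · exact Or.inl hxX
      · exact Or.inr hb
    · intro z hz
      simp at hz
      rcases hz with rfl | rfl | rfl | rfl
      · exact haF
      · exact hyF.2
      · exact hxF.2
      · exact hbF
  | succ j hj ih =>
    intro a b F ha hb haF hbF hX hY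
    have haY : a ∉ Y := fun h => Finset.disjoint_left.1 hd ha h
    have hbX : b ∉ X := fun h => Finset.disjoint_left.1 hd h hb
    obtain ⟨y, hyY, hyF, hay⟩ := h1.exists_adj ha (insert b F) (by
      have := card_inter_insert_le F Y b
      omega)
    simp only [Finset.mem_insert, not_or] at hyF
    obtain ⟨x, hxX, hxF, hyx⟩ := h2.exists_adj hyY (insert a F) (by
      have := card_inter_insert_le F X a
      omega)
    simp only [Finset.mem_insert, not_or] at hxF
    have hxy : x ≠ y := fun h => Finset.disjoint_left.1 hd hxX (h ▸ hyY)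
    have hyX : y ∉ X := fun h => Finset.disjoint_left.1 hd h hyY
    have hab : a ≠ b := fun h => haY (h ▸ hb)
    obtain ⟨l, p1, p2, p3, p4⟩ := ih x b (insert a (insert y F)) hxX hb
      (by simp only [Finset.mem_insert, not_or]; exact ⟨hxF.1, hxy, hxF.2⟩)
      (by simp only [Finset.mem_insert, not_or]; exact ⟨Ne.symm hab, Ne.symm hyF.1, hbF⟩)
      (by
        have h3 := card_inter_insert_le (insert y F) X a
        rw [card_inter_insert_notMem hyX] at h3
        omega)
      (by
        rw [card_inter_insert_notMem haY]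
        have h3 := card_inter_insert_le F Y y
        omega)
    have hal : a ∉ l := fun h => p4 a h (by simp)
    have hyl : y ∉ l := fun h => p4 y h (by simp)
    have q1 := p1.cons hyx hyl
    have q2 := q1.cons hay (by
      simp only [List.mem_cons, not_or]; exact ⟨hay.ne, hal⟩)
    refine ⟨_, q2, by simp only [List.length_cons]; omega, ?_, ?_⟩
    · intro z hz
      simp only [List.mem_cons] at hz
      rcases hz with rfl | rfl | hz
      · exact Or.inl ha
      · exact Or.inr hyY
      · exact p3 z hz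
    · intro z hz
      simp only [List.mem_cons] at hz
      rcases hz with rfl | rfl | hz
      · exact haF
      · exact hyF.2
      · exact fun h => p4 z hz (by simp [h])

/-- Paths with an even number of vertices between the two sides of a nearly complete bipartite
graph. -/
theorem bip_path {G : SimpleGraph V} {X Y : Finset V} {c : ℕ}
    (h1 : NearFull G X Y c) (h2 : NearFull G Y X c) (hd : Disjoint X Y) (j : ℕ) (hj : 2 ≤ j)
    {a b : V} (ha : a ∈ X) (hb : b ∈ Y) (hX : 2 * c + j ≤ X.card) (hY : 2 * c + j ≤ Y.card) :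
    ∃ l, LPath G a b l ∧ l.length = 2 * j ∧ (∀ x ∈ l, x ∈ X ∨ x ∈ Y) := by
  obtain ⟨l, p1, p2, p3, -⟩ := bip_path_avoid h1 h2 hd j hj a b ∅ ha hb (by simp) (by simp)
    (by simp; omega) (by simp; omega)
  exact ⟨l, p1, p2, p3⟩

/-- An edge inside one side of a nearly complete bipartite graph gives odd cycles. -/
theorem bip_edge_cycle {G : SimpleGraph V} {X Y : Finset V} {c : ℕ}
    (h1 : NearFull G X Y c) (h2 : NearFull G Y X c) (hd : Disjoint X Y) {x x' : V}
    (hx : x ∈ X) (hx' : x' ∈ X) (hadj : G.Adj x x') (j : ℕ) (hj : 2 ≤ j)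
    (hX : 2 * c + j + 1 ≤ X.card) (hY : 2 * c + j ≤ Y.card) :
    ∃ l, LCycle G l ∧ l.length = 2 * j + 1 := by
  classical
  obtain ⟨y, hyY, -, hxy⟩ := h1.exists_adj hx ∅ (by simp; omega)
  have hyX : y ∉ X := fun h => Finset.disjoint_left.1 hd h hyY
  have hxY : x ∉ Y := fun h => Finset.disjoint_left.1 hd hx h
  obtain ⟨l, p1, p2, p3, p4⟩ := bip_path_avoid h1 h2 hd j hj x' y {x} hx' hyY
    (by simpa using hadj.ne') (by simpa using hxy.ne')
    (by
      have h3 : ({x} ∩ X : Finset V).card ≤ 1 := by
        exact (Finset.card_le_card Finset.inter_subset_left).trans (by simp)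
      omega)
    (by
      have h3 : ({x} ∩ Y : Finset V) = ∅ := by
        ext z; simp only [Finset.mem_inter, Finset.mem_singleton, Finset.notMem_empty,
          iff_false, not_and]
        rintro rfl; exact hxY
      rw [h3]; simp; omega)
  have hxl : x ∉ l := fun h => p4 x h (by simp)
  have q := p1.cons hadj hxl
  exact ⟨_, q.cycle (by simp only [List.length_cons]; omega) hxy.symm,
    by simp only [List.length_cons]; omega⟩

/-- A vertex with neighbours in both sides of a nearly complete bipartite graph gives odd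
cycles. -/
theorem bip_vertex_cycle {G : SimpleGraph V} {X Y : Finset V} {c : ℕ}
    (h1 : NearFull G X Y c) (h2 : NearFull G Y X c) (hd : Disjoint X Y) {x y z : V}
    (hx : x ∈ X) (hy : y ∈ Y) (hzX : z ∉ X) (hzY : z ∉ Y) (hzx : G.Adj z x) (hzy : G.Adj z y)
    (j : ℕ) (hj : 2 ≤ j) (hX : 2 * c + j ≤ X.card) (hY : 2 * c + j ≤ Y.card) :
    ∃ l, LCycle G l ∧ l.length = 2 * j + 1 := by
  classical
  obtain ⟨l, p1, p2, p3⟩ := bip_path h1 h2 hd j hj hx hy hX hY
  have hzl : z ∉ l := fun h => (p3 z h).elim hzX hzY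
  have q := p1.cons hzx hzl
  exact ⟨_, q.cycle (by simp only [List.length_cons]; omega) hzy.symm,
    by simp only [List.length_cons]; omega⟩

end TC.NC
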