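import Mathlib

set_option autoImplicit false

/-!
# Walks of prescribed length and bounded multiplicities in a small graph
-/

namespace Pool.Agent.Lib.MP_0e31aa_co

open Finset

/-- The bipartite double cover. -/
def dbl {ι : Type*} (Γ : SimpleGraph ι) : SimpleGraph (ι × Bool) where
  Adj x y := Γ.Adj x.1 y.1 ∧ x.2 ≠ y.2
  symm := ⟨fun _ _ h => ⟨h.1.symm, h.2.symm⟩⟩
  loopless := ⟨fun _ h => h.2 rfl⟩

/-- Lifting a walk to the double cover. -/
theorem dbl_reach {ι : Type*} {Γ : SimpleGraph ι} {a b : ι} (w : Γ.Walk a b) (s : Bool) :
    (dbl Γ).Reachable (a, s) (b, xor s (decide (w.length % 2 = 1))) := by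
  induction w generalizing s with
  | nil => simp
  | @cons a c b h w ih =>
    have h1 : (dbl Γ).Adj (a, s) (c, !s) := ⟨h, by cases s <;> simp⟩
    refine h1.reachable.trans ?_
    have h2 := ih (!s)
    have h3 : xor s (decide ((SimpleGraph.Walk.cons h w).length % 2 = 1)) =
        xor (!s) (decide (w.length % 2 = 1)) := by
      rw [SimpleGraph.Walk.length_cons]
      rcases Nat.mod_two_eq_zero_or_one w.length with h4 | h4
      · have h5 : (w.length + 1) % 2 = 1 := by omega
        rw [h4, h5]
        cases s <;> simp
      · have h5 : (w.length + 1) % 2 = 0 := by omega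
        rw [h4, h5]
        cases s <;> simp
    rw [h3]
    exact h2

/-- Projecting a walk of the double cover. -/
theorem dbl_proj {ι : Type*} {Γ : SimpleGraph ι} {x y : ι × Bool} (w : (dbl Γ).Walk x y) :
    ∃ w' : Γ.Walk x.1 y.1, w'.length = w.length ∧ (w.length % 2 = 0 ↔ x.2 = y.2) := by
  induction w with
  | nil => exact ⟨SimpleGraph.Walk.nil, by simp⟩
  | @cons a c b h w ih =>
    obtain ⟨w', h1, h2⟩ := ih
    refine ⟨SimpleGraph.Walk.cons h.1 w', by simp [h1], ?_⟩
    rw [SimpleGraph.Walk.length_cons]
    have h3 := h.2
    rcases Nat.mod_two_eq_zero_or_one w.length with h4 | h4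
    · have h5 : (w.length + 1) % 2 = 1 := by omega
      have h6 := h2.mp h4
      rw [h5]
      constructor
      · intro h7
        omega
      · intro h7
        exact absurd (h7.trans h6.symm) h3
    · have h5 : (w.length + 1) % 2 = 0 := by omega
      have h6 : c.2 ≠ b.2 := fun h7 => by
        have := h2.mpr h7
        omega
      rw [h5]
      refine ⟨fun _ => ?_, fun _ => rfl⟩
      revert h3 h6
      cases a.2 <;> cases c.2 <;> cases b.2 <;> simp

/-- Every walk can be replaced by a short one with the same ends and the same parity. -/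
theorem short_par {ι : Type*} [Fintype ι] {Γ : SimpleGraph ι} {a b : ι} (w : Γ.Walk a b) :
    ∃ w' : Γ.Walk a b, w'.length ≤ 2 * Fintype.card ι ∧ w'.length % 2 = w.length % 2 := by
  classical
  obtain ⟨p⟩ := dbl_reach w false
  have hp := SimpleGraph.Walk.IsPath.length_lt (SimpleGraph.Walk.bypass_isPath p)
  obtain ⟨w', h1, h2⟩ := dbl_proj p.bypass
  generalize p.bypass.length = L at h1 h2 hp
  refine ⟨w', ?_, ?_⟩
  · rw [h1]
    rw [Fintype.card_prod, Fintype.card_bool] at hp
    omega
  · rw [h1]
    simp only [Bool.false_xor] at h2
    rcases Nat.mod_two_eq_zero_or_one w.length with h4 | h4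
    · rw [h4] at h2 ⊢
      rw [h2]
      simp
    · rw [h4] at h2 ⊢
      rcases Nat.mod_two_eq_zero_or_one L with h5 | h5
      · exfalso
        have h6 := h2.mp h5
        simp at h6
      · exact h5

/-- Going back and forth. -/
theorem back_forth {ι : Type*} [DecidableEq ι] {Γ : SimpleGraph ι} {i j : ι} (h : Γ.Adj i j)
    (c : ℕ) : ∃ w : Γ.Walk i i, w.length = 2 * c ∧
      ∀ x, w.support.count x ≤ (if x = i then c + 1 else 0) + (if x = j then c else 0) := by
  induction c with
  | zero =>
    refine ⟨SimpleGraph.Walk.nil, by simp, ?_⟩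
    intro x
    rw [SimpleGraph.Walk.support_nil, List.count_cons, List.count_nil]
    by_cases hx : x = i
    · simp [hx]
    · simp [hx, Ne.symm hx]
  | succ c ih =>
    obtain ⟨w, h1, h2⟩ := ih
    refine ⟨SimpleGraph.Walk.cons h (SimpleGraph.Walk.cons h.symm w), by simp [h1]; ring, ?_⟩
    intro x
    have h3 := h2 x
    rw [SimpleGraph.Walk.support_cons, SimpleGraph.Walk.support_cons, List.count_cons,
      List.count_cons]
    have hij : i ≠ j := h.ne
    by_cases hx : x = i
    · subst hx
      simp only [if_true, hij, if_false, beq_self_eq_true] at h3 ⊢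
      have : (j == x) = false := by simpa using hij.symm
      rw [this]
      simp only [Bool.false_eq_true, if_false]
      omega
    · by_cases hx2 : x = j
      · subst hx2
        simp only [hx, if_true, if_false, beq_self_eq_true] at h3 ⊢
        have : (i == x) = false := by simpa using hij
        rw [this]
        simp only [Bool.false_eq_true, if_false]
        omega
      · simp only [hx, hx2, if_false] at h3 ⊢
        have e1 : (i == x) = false := by simpa using Ne.symm hx
        have e2 : (j == x) = false := by simpa using Ne.symm hx2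
        rw [e1, e2]
        simp only [Bool.false_eq_true, if_false]
        omega

theorem count_append {ι : Type*} [DecidableEq ι] {Γ : SimpleGraph ι} {a b c : ι}
    (p : Γ.Walk a b) (q : Γ.Walk b c) (x : ι) :
    (p.append q).support.count x + (if x = b then 1 else 0) =
      p.support.count x + q.support.count x := by
  rw [SimpleGraph.Walk.support_append, List.count_append]
  have h : q.support.count x = q.support.tail.count x + (if x = b then 1 else 0) := by
    conv_lhs => rw [← SimpleGraph.Walk.cons_tail_support q]
    rw [List.count_cons]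
    congr 1
    by_cases hx : x = b
    · simp [hx]
    · have : (b == x) = false := by simpa using Ne.symm hx
      rw [this]
      simp [hx]
  omega

theorem count_le_length {ι : Type*} [DecidableEq ι] {Γ : SimpleGraph ι} {a b : ι}
    (p : Γ.Walk a b) (x : ι) : p.support.count x ≤ p.length + 1 := by
  rw [← SimpleGraph.Walk.length_support]
  exact List.count_le_length

/-- A tour through the arrows `i → f i`, `i ∈ D`, each of them walked back and forth `c i` times. -/
theorem tour {ι : Type*} [Fintype ι] [DecidableEq ι] (Γ : SimpleGraph ι) (f : ι → ι) (p : ι)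
    (D : Finset ι) (hadj : ∀ i ∈ D, Γ.Adj i (f i)) (hr : ∀ i ∈ D, Γ.Reachable p i) :
    ∃ (q : ι) (r : ℕ), r ≤ 2 * Fintype.card ι * D.card ∧ ∀ c : ι → ℕ,
      ∃ w : Γ.Walk p q, w.length = r + 2 * ∑ i ∈ D, c i ∧
        ∀ x, w.support.count x ≤ r + (if x = p then 1 else 0) + (if x ∈ D then c x else 0) +
          ∑ i ∈ D.filter (fun i => f i = x), c i := by
  induction D using Finset.induction_on with
  | empty =>
    refine ⟨p, 0, by simp, fun c => ⟨SimpleGraph.Walk.nil, by simp, ?_⟩⟩
    intro x
    rw [SimpleGraph.Walk.support_nil, List.count_cons, List.count_nil]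
    by_cases hx : x = p
    · simp [hx]
    · simp [hx, Ne.symm hx]
  | @insert i D hi ih =>
    obtain ⟨q, r, h1, h2⟩ := ih (fun j hj => hadj j (mem_insert_of_mem hj))
      (fun j hj => hr j (mem_insert_of_mem hj))
    obtain ⟨w0, -, -⟩ := h2 (fun _ => 0)
    have hreach : Γ.Reachable q i := (w0.reachable.symm).trans (hr i (mem_insert_self _ _))
    obtain ⟨w1⟩ := hreach
    obtain ⟨w2, h3, -⟩ := short_par w1
    refine ⟨i, r + w2.length, ?_, ?_⟩
    · rw [card_insert_of_notMem hi]
      nlinarith
    · intro c
      obtain ⟨w, h4, h5⟩ := h2 c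
      obtain ⟨w3, h6, h7⟩ := back_forth (hadj i (mem_insert_self _ _)) (c i)
      refine ⟨(w.append w2).append w3, ?_, ?_⟩
      · rw [SimpleGraph.Walk.length_append, SimpleGraph.Walk.length_append, h4, h6,
          sum_insert hi]
        ring
      · intro x
        have e1 := count_append (w.append w2) w3 x
        have e2 := count_append w w2 x
        have e3 := h5 x
        have e4 := h7 x
        have e5 := count_le_length w2 x
        have hfil : ∑ j ∈ (insert i D).filter (fun j => f j = x), c j =
            (if x = f i then c i else 0) + ∑ j ∈ D.filter (fun j => f j = x), c j := by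
          by_cases hx : x = f i
          · rw [filter_insert, if_pos hx.symm, sum_insert (by simp [hi]), if_pos hx]
          · rw [filter_insert, if_neg (fun h => hx h.symm), if_neg hx, zero_add]
        rw [hfil]
        have hmem : (if x ∈ insert i D then c x else 0) =
            (if x = i then c i else 0) + (if x ∈ D then c x else 0) := by
          by_cases hx : x = i
          · subst hx
            simp [hi]
          · simp [hx]
        rw [hmem]
        -- the two end vertices are counted once less
        have e6 : w2.support.count x ≤ w2.length + (if x = q then 1 else 0) := by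
          have := SimpleGraph.Walk.cons_tail_support w2
          rw [← this, List.count_cons]
          have h8 : w2.support.tail.count x ≤ w2.support.tail.length := List.count_le_length
          rw [List.length_tail, SimpleGraph.Walk.length_support] at h8
          by_cases hx : x = q
          · simp only [hx, if_true, beq_self_eq_true] at h8 ⊢
            omega
          · have : (q == x) = false := by simpa using Ne.symm hx
            rw [this]
            simp only [hx, if_false, Bool.false_eq_true]
            omega
        split_ifs at e1 e2 e3 e4 e6 ⊢ <;> omega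

/-- Numbers with prescribed sum and upper bound. -/
theorem exists_split {ι : Type*} [DecidableEq ι] (D : Finset ι) (C s : ℕ) (hs : s ≤ C * D.card) :
    ∃ c : ι → ℕ, (∀ i, c i ≤ C) ∧ ∑ i ∈ D, c i = s := by
  induction D using Finset.induction_on generalizing s with
  | empty =>
    refine ⟨fun _ => 0, by simp, ?_⟩
    simp at hs
    simp [hs]
  | @insert i D hi ih =>
    rw [card_insert_of_notMem hi] at hs
    obtain ⟨c, h1, h2⟩ := ih (s - C) (by
      rw [Nat.mul_add, Nat.mul_one] at hs
      omega)
    refine ⟨Function.update c i (min s C), ?_, ?_⟩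
    · intro j
      by_cases hj : j = i
      · subst hj
        simp
      · rw [Function.update_of_ne hj]
        exact h1 j
    · rw [sum_insert hi, Function.update_self]
      have : ∑ j ∈ D, Function.update c i (min s C) j = ∑ j ∈ D, c j := by
        apply sum_congr rfl
        intro j hj
        rw [Function.update_of_ne (fun h => hi (by rw [← h]; exact hj))]
      rw [this, h2]
      omega

/-- **Walks of prescribed length.** -/
theorem walk_cap' {ι : Type*} [Fintype ι] [DecidableEq ι] (Γ : SimpleGraph ι) (f : ι → ι)
    (D : Finset ι) (hf : Set.InjOn f D) (hadj : ∀ i ∈ D, Γ.Adj i (f i)) {p q : ι}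
    (hr : ∀ i ∈ D, Γ.Reachable p i) (C ℓ : ℕ) (w0 : Γ.Walk p q)
    (hpar : w0.length % 2 = ℓ % 2) (h1 : 2 * Fintype.card ι * (Fintype.card ι + 1) ≤ ℓ)
    (h2 : ℓ ≤ 2 * C * D.card) :
    ∃ w : Γ.Walk p q, w.length = ℓ ∧
      ∀ x, w.support.count x ≤
        2 * C + 2 * Fintype.card ι * (Fintype.card ι + 1) + (if x = p then 1 else 0) := by
  obtain ⟨q', r, h3, h4⟩ := tour Γ f p D hadj hr
  obtain ⟨wt, ht, -⟩ := h4 (fun _ => 0)
  obtain ⟨w1, h5, h6⟩ := short_par (wt.reverse.append w0)
  rw [SimpleGraph.Walk.length_append, SimpleGraph.Walk.length_reverse, ht] at h6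
  simp only [sum_const_zero, mul_zero, add_zero] at h6
  have hD : D.card ≤ Fintype.card ι := card_le_univ _
  have h7 : r + w1.length ≤ 2 * Fintype.card ι * (Fintype.card ι + 1) := by
    have : 2 * Fintype.card ι * D.card ≤ 2 * Fintype.card ι * Fintype.card ι :=
      Nat.mul_le_mul_left _ hD
    nlinarith
  obtain ⟨c, h8, h9⟩ := exists_split D C ((ℓ - (r + w1.length)) / 2) (by
    have : 2 * C * D.card = 2 * (C * D.card) := by ring
    omega)
  obtain ⟨w, h10, h11⟩ := h4 c
  refine ⟨w.append w1, ?_, ?_⟩
  · rw [SimpleGraph.Walk.length_append, h10, h9]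
    omega
  · intro x
    have e1 := count_append w w1 x
    have e2 := h11 x
    have e3 : w1.support.count x ≤ w1.length + (if x = q' then 1 else 0) := by
      have := SimpleGraph.Walk.cons_tail_support w1
      rw [← this, List.count_cons]
      have h8 : w1.support.tail.count x ≤ w1.support.tail.length := List.count_le_length
      rw [List.length_tail, SimpleGraph.Walk.length_support] at h8
      by_cases hx : x = q'
      · simp only [hx, if_true, beq_self_eq_true] at h8 ⊢
        omega
      · have : (q' == x) = false := by simpa using Ne.symm hx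
        rw [this]
        simp only [hx, if_false, Bool.false_eq_true]
        omega
    have e4 : (if x ∈ D then c x else 0) ≤ C := by
      split_ifs
      · exact h8 x
      · exact Nat.zero_le _
    have e5 : ∑ i ∈ D.filter (fun i => f i = x), c i ≤ C := by
      have hc : (D.filter (fun i => f i = x)).card ≤ 1 := by
        rw [card_le_one]
        intro a ha b hb
        rw [mem_filter] at ha hb
        exact hf (by exact_mod_cast ha.1) (by exact_mod_cast hb.1) (ha.2.trans hb.2.symm)
      calc ∑ i ∈ D.filter (fun i => f i = x), c i
          ≤ (D.filter (fun i => f i = x)).card • C := sum_le_card_nsmul _ _ _ (fun i _ => h8 i)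
        _ ≤ 1 • C := Nat.mul_le_mul_right _ hc
        _ = C := one_nsmul C
    omega

/-- Walks of prescribed length, with a simpler bound. -/
theorem walk_cap {ι : Type*} [Fintype ι] [DecidableEq ι] (Γ : SimpleGraph ι) (f : ι → ι)
    (D : Finset ι) (hf : Set.InjOn f D) (hadj : ∀ i ∈ D, Γ.Adj i (f i)) {p q : ι}
    (hr : ∀ i ∈ D, Γ.Reachable p i) (C ℓ : ℕ) (w0 : Γ.Walk p q)
    (hpar : w0.length % 2 = ℓ % 2) (h1 : 2 * Fintype.card ι * (Fintype.card ι + 1) ≤ ℓ)
    (h2 : ℓ ≤ 2 * C * D.card) :
    ∃ w : Γ.Walk p q, w.length = ℓ ∧
      ∀ x, w.support.count x ≤ 2 * C + (2 * Fintype.card ι * (Fintype.card ι + 1) + 2) := by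
  obtain ⟨w, hw, hc⟩ := walk_cap' Γ f D hf hadj hr C ℓ w0 hpar h1 h2
  refine ⟨w, hw, fun x => ?_⟩
  have := hc x
  split_ifs at this <;> omega

/-- The multiplicity of a vertex in a walk, counted with `getVert`. -/
theorem count_getVert {ι : Type*} [DecidableEq ι] {Γ : SimpleGraph ι} {a b : ι}
    (w : Γ.Walk a b) (x : ι) :
    ((range w.length).filter (fun i => w.getVert i = x)).card + (if x = b then 1 else 0) =
      w.support.count x := by
  induction w with
  | nil =>
    rw [SimpleGraph.Walk.support_nil, List.count_cons, List.count_nil]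
    rename_i u
    by_cases hx : x = u
    · simp [hx]
    · simp [hx, Ne.symm hx]
  | @cons u v b h w ih =>
    rw [SimpleGraph.Walk.support_cons, List.count_cons, ← ih, SimpleGraph.Walk.length_cons,
      range_add_one']
    rw [filter_insert]
    have h1 : ((range w.length).map ⟨fun i => i + 1, fun i j => by simp⟩).filter
        (fun i => (SimpleGraph.Walk.cons h w).getVert i = x) =
        ((range w.length).filter (fun i => w.getVert i = x)).map
          ⟨fun i => i + 1, fun i j => by simp⟩ := by
      rw [filter_map]
      congr 1
    rw [h1]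
    simp only [SimpleGraph.Walk.getVert_zero]
    by_cases hx : u = x
    · rw [if_pos hx, card_insert_of_notMem (by simp), card_map]
      simp only [hx, beq_self_eq_true, if_true]
      omega
    · rw [if_neg hx, card_map]
      have : (u == x) = false := by simpa using hx
      rw [this]
      simp

end Pool.Agent.Lib.MP_0e31aa_co
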